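import Pool.Agent.U360.PO.Fin

/-!
# Popescu's conjecture depends only on the non-split primes and on a group of ideal classes
-/

set_option autoImplicit false
set_option linter.unusedSectionVars false

open NumberField IsDedekindDomain Filter Topology

noncomputable section

namespace Pool.Agent.U360.PO

open Pool.Agent.K3h30.RS Pool.Agent.U360.RS Pool.Agent.U360.AS Pool.Agent.K3h8.RS
  Pool.Agent.K3h25.RS

variable {F H G : Type} [Field F] [NumberField F] [Field H] [NumberField H] [Algebra F H]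
  [CommGroup G] [Finite G] [MulSemiringAction G H]

/-- The group generated by the classes of the prime ideals of `𝓞 H` over elements of `S`. -/
def clsGroup (H : Type) [Field H] [NumberField H] [Algebra F H]
    (S : Set (HeightOneSpectrum (𝓞 F))) : Subgroup (ClassGroup (𝓞 H)) :=
  Subgroup.closure (cls '' {Q : HeightOneSpectrum (𝓞 H) | Above S Q})

/-- The elements of `S` which do not split completely in `H`. -/
def nonSplit (H : Type) [Field H] [NumberField H] [Algebra F H]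
    (S : Finset (HeightOneSpectrum (𝓞 F))) : Set (HeightOneSpectrum (𝓞 F)) :=
  {v | v ∈ S ∧ ¬ SplitsIn H v}

/-- `S₂` contains the elements of `S₁` which do not split completely in `H`, and the classes of the
prime ideals over `S₂` belong to the group generated by the classes of the prime ideals over `S₁`
and over the elements of `S₂` which do not split completely. -/
def Dominates (H : Type) [Field H] [NumberField H] [Algebra F H]
    (S₁ S₂ : Finset (HeightOneSpectrum (𝓞 F))) : Prop :=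
  nonSplit H S₁ ⊆ nonSplit H S₂ ∧
    clsGroup H (S₂ : Set (HeightOneSpectrum (𝓞 F))) ≤
      clsGroup H ((S₁ : Set (HeightOneSpectrum (𝓞 F))) ∪ nonSplit H S₂)

theorem clsGroup_mono {S S' : Set (HeightOneSpectrum (𝓞 F))} (h : S ⊆ S') :
    clsGroup H S ≤ clsGroup H S' := by
  refine Subgroup.closure_mono (Set.image_mono ?_)
  rintro Q ⟨u, hu, h'⟩
  exact ⟨u, h hu, h'⟩

theorem cls_mem {S : Set (HeightOneSpectrum (𝓞 F))} {v : HeightOneSpectrum (𝓞 F)} (hv : v ∈ S)
    {P : HeightOneSpectrum (𝓞 H)} (hP : Above {v} P) : cls P ∈ clsGroup H S :=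
  Subgroup.subset_closure ⟨P, (above_iff hP).2 hv, rfl⟩

variable [hG : IsGaloisGroup G F H]

/-- the generator `ε` -/
theorem exists_gen_eps' (D : RubinData F H G) (v : HeightOneSpectrum (𝓞 F)) (hv : v ∉ D.S)
    (hσ : D.σ v = 1) (P : HeightOneSpectrum (𝓞 H)) (hP : Above {v} P)
    (hc : cls P ∈ clsGroup H (D.S : Set (HeightOneSpectrum (𝓞 F)))) :
    ∃ ε : Hˣ, ε ∈ US (addS D v hv hσ P hP) ∧ OG G P ε = 1 := by
  classical
  obtain ⟨ε, hε⟩ := closure_elt _ hc _ rfl
  have hne : ∀ w : HeightOneSpectrum (𝓞 H), Above {v} w →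
      ¬ Above (D.S : Set (HeightOneSpectrum (𝓞 F))) w := by
    intro w hw h
    exact hv (Finset.mem_coe.1 ((above_iff hw).1 h))
  have h1 : ordP P ε = 1 := by
    rw [hε P (hne P hP)]
    change ((cnt P P.asIdeal : ℕ) : ℤ) = 1
    rw [cnt_self, Nat.cast_one]
  have h2 : ∀ w : HeightOneSpectrum (𝓞 H), w ≠ P →
      ¬ Above (D.S : Set (HeightOneSpectrum (𝓞 F))) w → ordP w ε = 0 := by
    intro w hw hwV
    rw [hε w hwV]
    change ((cnt w P.asIdeal : ℕ) : ℤ) = 0
    rw [cnt_ne hw, Nat.cast_zero]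
  refine ⟨ε, ⟨fun w hw => ?_, fun w hw => ?_⟩, ?_⟩
  · rw [← ordP_eq_zero_iff]
    refine h2 w ?_ ?_
    · rintro rfl
      apply hw
      rw [above_iff hP]
      exact Finset.mem_coe.2 (Finset.mem_cons_self (h := hv) v D.S)
    · rintro ⟨u, hu, h⟩
      exact hw ⟨u, Finset.mem_coe.2 (subset_cons' hv (Finset.mem_coe.1 hu)), h⟩
  · obtain ⟨u, hu, -⟩ := hw
    exact absurd hu (by simp)
  · ext γ
    rw [coeff_OG, MonoidAlgebra.one_def, MonoidAlgebra.coeff_single, Finsupp.single_apply]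
    by_cases hγ : (1 : G) = γ
    · rw [if_pos hγ, ← hγ, inv_one, act_one]
      exact h1
    · rw [if_neg hγ]
      obtain ⟨w', hw', h3⟩ := (t_TRANS F H G v P hP).1 γ⁻¹
      have h4 : ordP P (act γ⁻¹ ε) = ordP w' ε := by
        apply ordP_eq_of_val
        rw [h3, act_val]
      rw [h4]
      refine h2 w' ?_ (hne w' hw')
      rintro rfl
      apply hγ
      have h5 := dec_trivial (D.unramified v hv) (hσ ▸ D.frob v hv) hP γ⁻¹ fun z => by
        exact (av_eq_of_val (h3 z)).symm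
      rw [inv_eq_one] at h5
      exact h5.symm

/-- adding prime ideals, one of two kinds -/
theorem pq_addE (D₁ : RubinData F H G) (hr : 0 < D₁.r) (h₁ : PQ D₁)
    [DecidableEq (HeightOneSpectrum (𝓞 F))] (E : Finset (HeightOneSpectrum (𝓞 F)))
    (hE : ∀ v ∈ E, v ∉ D₁.S → SplitsIn H v → ∀ P : HeightOneSpectrum (𝓞 H), Above {v} P →
      cls P ∈ clsGroup H (D₁.S : Set (HeightOneSpectrum (𝓞 F)))) :
    ∃ D₂ : RubinData F H G, D₂.S = D₁.S ∪ E ∧ 0 < D₂.r ∧ PQ D₂ := by
  induction E using Finset.induction_on with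
  | empty => exact ⟨D₁, by rw [Finset.union_empty], hr, h₁⟩
  | insert v E hvE ih =>
    obtain ⟨D₂, hS, hr₂, h₂⟩ := ih fun u hu => hE u (Finset.mem_insert_of_mem hu)
    by_cases hv : v ∈ D₂.S
    · refine ⟨D₂, ?_, hr₂, h₂⟩
      rw [Finset.union_insert, ← hS, Finset.insert_eq_of_mem hv]
    · by_cases hσ : D₂.σ v = 1
      · obtain ⟨P, hP⟩ := (t_OVER F H v).1
        have hv₁ : v ∉ D₁.S := fun h => hv (by rw [hS]; exact Finset.mem_union_left _ h)
        obtain ⟨ε, hε, hO⟩ := exists_gen_eps' D₂ v hv hσ P hP (by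
          refine clsGroup_mono ?_ (hE v (Finset.mem_insert_self v E) hv₁
            ((spl_iff_splitsIn (G := G) v).1 ((spl_iff D₂ hv).1 hσ)) P hP)
          intro u hu
          rw [hS]
          exact Finset.mem_coe.2 (Finset.mem_union_left _ (Finset.mem_coe.1 hu)))
        refine ⟨addS D₂ v hv hσ P hP, ?_, Nat.succ_pos _,
          pq_addS D₂ v hv hσ P hP hr₂ ε hε hO h₂⟩
        change Finset.cons v D₂.S hv = _
        rw [Finset.cons_eq_insert, hS, Finset.union_insert]
      · refine ⟨addN D₂ v hv hσ, ?_, hr₂, pq_addN D₂ v hv hσ h₂⟩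
        change Finset.cons v D₂.S hv = _
        rw [Finset.cons_eq_insert, hS, Finset.union_insert]

/-- the same for Rubin's conjecture -/
theorem rubin_addE (D₁ : RubinData F H G) (h₁ : ∀ T, D₁.Allowed T → D₁.Rubin T)
    [DecidableEq (HeightOneSpectrum (𝓞 F))] (E : Finset (HeightOneSpectrum (𝓞 F)))
    (hE : ∀ v ∈ E, v ∉ D₁.S → SplitsIn H v → ∀ P : HeightOneSpectrum (𝓞 H), Above {v} P →
      cls P ∈ clsGroup H (D₁.S : Set (HeightOneSpectrum (𝓞 F)))) :
    ∃ D₂ : RubinData F H G, D₂.S = D₁.S ∪ E ∧ ∀ T, D₂.Allowed T → D₂.Rubin T := by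
  induction E using Finset.induction_on with
  | empty => exact ⟨D₁, by rw [Finset.union_empty], h₁⟩
  | insert v E hvE ih =>
    obtain ⟨D₂, hS, h₂⟩ := ih fun u hu => hE u (Finset.mem_insert_of_mem hu)
    by_cases hv : v ∈ D₂.S
    · refine ⟨D₂, ?_, h₂⟩
      rw [Finset.union_insert, ← hS, Finset.insert_eq_of_mem hv]
    · by_cases hσ : D₂.σ v = 1
      · obtain ⟨P, hP⟩ := (t_OVER F H v).1
        have hv₁ : v ∉ D₁.S := fun h => hv (by rw [hS]; exact Finset.mem_union_left _ h)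
        obtain ⟨ε, hε, hO⟩ := exists_gen_eps' D₂ v hv hσ P hP (by
          refine clsGroup_mono ?_ (hE v (Finset.mem_insert_self v E) hv₁
            ((spl_iff_splitsIn (G := G) v).1 ((spl_iff D₂ hv).1 hσ)) P hP)
          intro u hu
          rw [hS]
          exact Finset.mem_coe.2 (Finset.mem_union_left _ (Finset.mem_coe.1 hu)))
        refine ⟨addS D₂ v hv hσ P hP, ?_, rubin_addS D₂ v hv hσ P hP ε hε hO h₂⟩
        change Finset.cons v D₂.S hv = _
        rw [Finset.cons_eq_insert, hS, Finset.union_insert]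
      · refine ⟨addN D₂ v hv hσ, ?_, fun T hT => rubin_addN D₂ v hv hσ T (h₂ T ?_)⟩
        · change Finset.cons v D₂.S hv = _
          rw [Finset.cons_eq_insert, hS, Finset.union_insert]
        · exact allowed_mono (D' := addN D₂ v hv hσ) (subset_cons' hv) hT

/-- the two steps of the enlargement -/
theorem dom_steps {S₁ S₂ E : Finset (HeightOneSpectrum (𝓞 F))}
    [DecidableEq (HeightOneSpectrum (𝓞 F))] (h : Dominates H S₁ S₂)
    (hE : ∀ v, v ∈ E ↔ v ∈ S₂ ∧ ¬ SplitsIn H v) :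
    (∀ v ∈ E, v ∉ S₁ → SplitsIn H v → ∀ P : HeightOneSpectrum (𝓞 H), Above {v} P →
      cls P ∈ clsGroup H (S₁ : Set (HeightOneSpectrum (𝓞 F)))) ∧
    (∀ v ∈ S₂, v ∉ S₁ ∪ E → SplitsIn H v → ∀ P : HeightOneSpectrum (𝓞 H), Above {v} P →
      cls P ∈ clsGroup H ((S₁ ∪ E : Finset (HeightOneSpectrum (𝓞 F))) :
        Set (HeightOneSpectrum (𝓞 F)))) := by
  refine ⟨fun v hv _ hs => absurd hs ((hE v).1 hv).2, fun v hv _ _ P hP => ?_⟩
  refine clsGroup_mono ?_ (h.2 (cls_mem (Finset.mem_coe.2 hv) hP))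
  rintro u (hu | hu)
  · exact Finset.mem_coe.2 (Finset.mem_union_left _ (Finset.mem_coe.1 hu))
  · exact Finset.mem_coe.2 (Finset.mem_union_right _ ((hE u).2 hu))

/-- **Popescu's conjecture for `S₁` implies Popescu's conjecture for all `S₂` dominated by it.** -/
theorem popescu_dom (D₁ D₂ : RubinData F H G) (hr : 0 < D₁.r) (h : Dominates H D₁.S D₂.S)
    (h₁ : Popescu D₁) : Popescu D₂ := by
  classical
  refine popescu_of_pq D₂ (pq_remove (D₁.S \ D₂.S) (fun v hv => ?_) D₂ fun D₃ hS => ?_)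
  · rw [Finset.mem_sdiff] at hv
    by_contra hc
    exact hv.2 (h.1 ⟨hv.1, fun h' => hc ((spl_iff_splitsIn v).2 h')⟩).1
  · obtain ⟨hE1, hE2⟩ := dom_steps h (E := D₂.S.filter fun v => ¬ SplitsIn H v) (fun v => by
      rw [Finset.mem_filter])
    obtain ⟨D₄, hS₄, hr₄, h₄⟩ := pq_addE D₁ hr (pq_of_popescu D₁ h₁) _ hE1
    rw [← hS₄] at hE2
    obtain ⟨D₅, hS₅, -, h₅⟩ := pq_addE D₄ hr₄ h₄ D₂.S hE2
    refine pq_indep D₅ D₃ ?_ h₅
    rw [hS₅, hS₄, hS]
    ext v
    simp only [Finset.mem_union, Finset.mem_filter, Finset.mem_sdiff]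
    tauto

/-- **Rubin's conjecture for `S₁` and all `T` implies Rubin's conjecture for all `S₂` dominated by
it and all `T`.** -/
theorem rubin_dom (D₁ D₂ : RubinData F H G) (h : Dominates H D₁.S D₂.S)
    (h₁ : ∀ T, D₁.Allowed T → D₁.Rubin T) : ∀ T, D₂.Allowed T → D₂.Rubin T := by
  classical
  refine rubin_remove (D₁.S \ D₂.S) (fun v hv => ?_) D₂ fun D₃ hS => ?_
  · rw [Finset.mem_sdiff] at hv
    by_contra hc
    exact hv.2 (h.1 ⟨hv.1, fun h' => hc ((spl_iff_splitsIn v).2 h')⟩).1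
  · obtain ⟨hE1, hE2⟩ := dom_steps h (E := D₂.S.filter fun v => ¬ SplitsIn H v) (fun v => by
      rw [Finset.mem_filter])
    obtain ⟨D₄, hS₄, h₄⟩ := rubin_addE D₁ h₁ _ hE1
    rw [← hS₄] at hE2
    obtain ⟨D₅, hS₅, h₅⟩ := rubin_addE D₄ h₄ D₂.S hE2
    have hSS : D₅.S = D₃.S := by
      rw [hS₅, hS₄, hS]
      ext v
      simp only [Finset.mem_union, Finset.mem_filter, Finset.mem_sdiff]
      tauto
    intro T hT
    have hT₅ : D₅.Allowed T := allowed_mono (by rw [hSS]) hT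
    exact rubin_indep D₅ D₃ hSS T hT₅.1 (h₅ T hT₅)

/-- a generating set dominates all sets which contain its non-split elements -/
theorem dom_of_generates {S₁ S₂ : Finset (HeightOneSpectrum (𝓞 F))} (hV : Generates (F := F) H S₁)
    (h : nonSplit H S₁ ⊆ nonSplit H S₂) : Dominates H S₁ S₂ := by
  refine ⟨h, ?_⟩
  unfold clsGroup
  rw [Subgroup.closure_le]
  rintro _ ⟨P, ⟨v, hv, hP⟩, rfl⟩
  by_cases hs : SplitsIn H v
  · have hP' : Above {v} P := ⟨v, rfl, hP⟩
    exact clsGroup_mono (S := (S₁ : Set (HeightOneSpectrum (𝓞 F)))) Set.subset_union_left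
      (hV v hs P hP')
  · have hP' : Above {v} P := ⟨v, rfl, hP⟩
    have hv' : v ∈ nonSplit H S₂ := ⟨Finset.mem_coe.1 hv, hs⟩
    exact cls_mem (Set.mem_union_right _ hv') hP'

end Pool.Agent.U360.PO
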