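import Pool.Agent.U360.PO.Den
import Pool.Agent.U360.PO.Dom

/-!
# Popescu's conjecture up to a factor: the class group law
-/

set_option autoImplicit false
set_option linter.unusedSectionVars false

open NumberField IsDedekindDomain Filter Topology

noncomputable section

namespace Pool.Agent.U360.PO

open Pool.Agent.K3h30.RS Pool.Agent.U360.RS Pool.Agent.U360.AS Pool.Agent.K3h8.RS
  Pool.Agent.K3h25.RS

/-- the order of an element modulo a subgroup -/
theorem exists_rel_order {A : Type} [CommGroup A] [Finite A] {B C : Subgroup A} (_hBC : B ≤ C)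
    (x : A) (hx : x ∈ C) : ∃ h : ℕ, 0 < h ∧ x ^ h ∈ B ∧ h ∣ B.relIndex C := by
  obtain ⟨y, hy⟩ : ∃ y : C ⧸ B.subgroupOf C, y = ((⟨x, hx⟩ : C) : C ⧸ B.subgroupOf C) :=
    ⟨_, rfl⟩
  refine ⟨orderOf y, orderOf_pos y, ?_, ?_⟩
  · have h1 : y ^ orderOf y = 1 := pow_orderOf_eq_one y
    have h2 : ((((⟨x, hx⟩ : C) ^ orderOf y : C)) : C ⧸ B.subgroupOf C) = 1 := by
      rw [QuotientGroup.mk_pow, ← hy, h1]
    rw [QuotientGroup.eq_one_iff, Subgroup.mem_subgroupOf] at h2
    exact h2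
  · exact orderOf_dvd_natCard y

variable {F H G : Type} [Field F] [NumberField F] [Field H] [NumberField H] [Algebra F H]
  [CommGroup G] [Finite G] [MulSemiringAction G H]

variable [hG : IsGaloisGroup G F H]

/-- a generator of a power of `P`, up to prime ideals over `S` -/
theorem exists_gen_pow (D : RubinData F H G) (v : HeightOneSpectrum (𝓞 F)) (hv : v ∉ D.S)
    (hσ : D.σ v = 1) (P : HeightOneSpectrum (𝓞 H)) (hP : Above {v} P) (h : ℕ)
    (hc : cls P ^ h ∈ clsGroup H (D.S : Set (HeightOneSpectrum (𝓞 F)))) :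
    ∃ ε : Hˣ, ε ∈ US (addS D v hv hσ P hP) ∧ OG G P ε = (h : MonoidAlgebra ℤ G) := by
  classical
  obtain ⟨ε, hε⟩ := closure_elt _ hc
    (⟨P.asIdeal, mem_nonZeroDivisors_of_ne_zero P.ne_bot⟩ ^ h) (map_pow _ _ _)
  have hne : ∀ w : HeightOneSpectrum (𝓞 H), Above {v} w →
      ¬ Above (D.S : Set (HeightOneSpectrum (𝓞 F))) w := by
    intro w hw h
    exact hv (Finset.mem_coe.1 ((above_iff hw).1 h))
  have hord : ∀ w : HeightOneSpectrum (𝓞 H),
      ¬ Above (D.S : Set (HeightOneSpectrum (𝓞 F))) w →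
      ordP w ε = h * (cnt w P.asIdeal : ℤ) := by
    intro w hw
    rw [hε w hw]
    change ((cnt w (P.asIdeal ^ h) : ℕ) : ℤ) = _
    rw [ordP_pow_ideal]
    push_cast
    ring
  have h1 : ordP P ε = h := by
    rw [hord P (hne P hP), cnt_self, Nat.cast_one, mul_one]
  have h2 : ∀ w : HeightOneSpectrum (𝓞 H), w ≠ P →
      ¬ Above (D.S : Set (HeightOneSpectrum (𝓞 F))) w → ordP w ε = 0 := by
    intro w hw hwV
    rw [hord w hwV, cnt_ne hw, Nat.cast_zero, mul_zero]
  refine ⟨ε, ⟨fun w hw => ?_, fun w hw => ?_⟩, ?_⟩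
  · rw [← ordP_eq_zero_iff]
    refine h2 w ?_ ?_
    · rintro rfl
      apply hw
      rw [above_iff hP]
      exact Finset.mem_coe.2 (Finset.mem_cons_self (h := hv) v D.S)
    · rintro ⟨u, hu, h⟩
      exact hw ⟨u, Finset.mem_coe.2 (subset_cons' hv (Finset.mem_coe.1 hu)), h⟩
  · obtain ⟨u, hu, -⟩ := hw
    exact absurd hu (by simp)
  · ext γ
    have e1 : ((h : MonoidAlgebra ℤ G)).coeff γ = if (1 : G) = γ then (h : ℤ) else 0 := by
      rw [← nsmul_one, MonoidAlgebra.one_def, MonoidAlgebra.smul_single,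
        MonoidAlgebra.coeff_single, Finsupp.single_apply, nsmul_one]
    rw [coeff_OG, e1]
    by_cases hγ : (1 : G) = γ
    · rw [if_pos hγ, ← hγ, inv_one, act_one]
      exact h1
    · rw [if_neg hγ]
      obtain ⟨w', hw', h3⟩ := (t_TRANS F H G v P hP).1 γ⁻¹
      have h4 : ordP P (act γ⁻¹ ε) = ordP w' ε := by
        apply ordP_eq_of_val
        rw [h3, act_val]
      rw [h4]
      refine h2 w' ?_ (hne w' hw')
      rintro rfl
      apply hγ
      have h5 := dec_trivial (D.unramified v hv) (hσ ▸ D.frob v hv) hP γ⁻¹ fun z => by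
        exact (av_eq_of_val (h3 z)).symm
      rw [inv_eq_one] at h5
      exact h5.symm

/-- adding prime ideals which do not split completely -/
theorem pqn_addE0 (N : ℕ) (D₁ : RubinData F H G) (hr : 0 < D₁.r) (h₁ : PQN N D₁)
    [DecidableEq (HeightOneSpectrum (𝓞 F))] (E : Finset (HeightOneSpectrum (𝓞 F)))
    (hE : ∀ v ∈ E, ¬ SplitsIn H v) :
    ∃ D₂ : RubinData F H G, D₂.S = D₁.S ∪ E ∧ 0 < D₂.r ∧ PQN N D₂ := by
  induction E using Finset.induction_on with
  | empty => exact ⟨D₁, by rw [Finset.union_empty], hr, h₁⟩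
  | insert v E hvE ih =>
    obtain ⟨D₂, hS, hr₂, h₂⟩ := ih fun u hu => hE u (Finset.mem_insert_of_mem hu)
    by_cases hv : v ∈ D₂.S
    · refine ⟨D₂, ?_, hr₂, h₂⟩
      rw [Finset.union_insert, ← hS, Finset.insert_eq_of_mem hv]
    · have hσ : D₂.σ v ≠ 1 := fun h => hE v (Finset.mem_insert_self v E)
        ((spl_iff_splitsIn (G := G) v).1 ((spl_iff D₂ hv).1 h))
      refine ⟨addN D₂ v hv hσ, ?_, hr₂, pqn_addN D₂ N v hv hσ h₂⟩
      change Finset.cons v D₂.S hv = _
      rw [Finset.cons_eq_insert, hS, Finset.union_insert]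

/-- adding prime ideals -/
theorem pqn_addE (N : ℕ) (D₁ : RubinData F H G) (hr : 0 < D₁.r) (h₁ : PQN N D₁)
    [DecidableEq (HeightOneSpectrum (𝓞 F))] (E : Finset (HeightOneSpectrum (𝓞 F))) :
    ∃ (D₂ : RubinData F H G) (N₂ : ℕ), D₂.S = D₁.S ∪ E ∧ 0 < D₂.r ∧ PQN N₂ D₂ ∧
      N₂ ∣ N * (clsGroup H (D₁.S : Set (HeightOneSpectrum (𝓞 F)))).relIndex
        (clsGroup H (D₂.S : Set (HeightOneSpectrum (𝓞 F)))) := by
  induction E using Finset.induction_on with
  | empty => exact ⟨D₁, N, by rw [Finset.union_empty], hr, h₁, Dvd.intro _ rfl⟩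
  | insert v E hvE ih =>
    obtain ⟨D₂, N₂, hS, hr₂, h₂, hdvd⟩ := ih
    by_cases hv : v ∈ D₂.S
    · refine ⟨D₂, N₂, ?_, hr₂, h₂, hdvd⟩
      rw [Finset.union_insert, ← hS, Finset.insert_eq_of_mem hv]
    · have hsub₁ : clsGroup H (D₁.S : Set (HeightOneSpectrum (𝓞 F))) ≤
          clsGroup H (D₂.S : Set (HeightOneSpectrum (𝓞 F))) := clsGroup_mono (by
        intro u hu
        rw [hS]
        exact Finset.mem_coe.2 (Finset.mem_union_left _ (Finset.mem_coe.1 hu)))
      have hsub₂ : clsGroup H (D₂.S : Set (HeightOneSpectrum (𝓞 F))) ≤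
          clsGroup H ((Finset.cons v D₂.S hv : Finset (HeightOneSpectrum (𝓞 F))) :
            Set (HeightOneSpectrum (𝓞 F))) := clsGroup_mono (by
        intro u hu
        exact Finset.mem_coe.2 (Finset.mem_cons_of_mem (Finset.mem_coe.1 hu)))
      have hmul := Subgroup.relIndex_mul_relIndex _ _ _ hsub₁ hsub₂
      by_cases hσ : D₂.σ v = 1
      · obtain ⟨P, hP⟩ := (t_OVER F H v).1
        obtain ⟨h, hh, hc, hd⟩ := exists_rel_order hsub₂ (cls P)
          (cls_mem (Finset.mem_coe.2 (Finset.mem_cons_self v D₂.S)) hP)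
        obtain ⟨ε, hε, hO⟩ := exists_gen_pow D₂ v hv hσ P hP h hc
        refine ⟨addS D₂ v hv hσ P hP, N₂ * h, ?_, Nat.succ_pos _,
          pqn_addS D₂ v hv hσ P hP N₂ hr₂ h hh ε hε hO h₂, ?_⟩
        · change Finset.cons v D₂.S hv = _
          rw [Finset.cons_eq_insert, hS, Finset.union_insert]
        · change N₂ * h ∣ N * (clsGroup H (D₁.S : Set (HeightOneSpectrum (𝓞 F)))).relIndex
            (clsGroup H ((Finset.cons v D₂.S hv : Finset (HeightOneSpectrum (𝓞 F))) :
              Set (HeightOneSpectrum (𝓞 F))))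
          rw [← hmul, ← mul_assoc]
          exact mul_dvd_mul hdvd hd
      · refine ⟨addN D₂ v hv hσ, N₂, ?_, hr₂, pqn_addN D₂ N₂ v hv hσ h₂, ?_⟩
        · change Finset.cons v D₂.S hv = _
          rw [Finset.cons_eq_insert, hS, Finset.union_insert]
        · change N₂ ∣ N * (clsGroup H (D₁.S : Set (HeightOneSpectrum (𝓞 F)))).relIndex
            (clsGroup H ((Finset.cons v D₂.S hv : Finset (HeightOneSpectrum (𝓞 F))) :
              Set (HeightOneSpectrum (𝓞 F))))
          rw [← hmul, ← mul_assoc]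
          exact Dvd.dvd.mul_right hdvd _

/-- **Removing prime ideals which split completely.** -/
theorem pqn_remove (N : ℕ) [DecidableEq (HeightOneSpectrum (𝓞 F))]
    (E : Finset (HeightOneSpectrum (𝓞 F))) : (∀ v ∈ E, Spl H G v) → ∀ D' : RubinData F H G,
    (∀ D₂ : RubinData F H G, D₂.S = D'.S ∪ E → PQN N D₂) → PQN N D' := by
  induction E using Finset.induction_on with
  | empty =>
    intro _ D' h
    exact h D' (by rw [Finset.union_empty])
  | insert v E hvE ih =>
    intro hE D' h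
    have hE' : ∀ v ∈ E, Spl H G v := fun u hu => hE u (Finset.mem_insert_of_mem hu)
    by_cases hv : v ∈ D'.S
    · refine ih hE' D' fun D₂ hS => h D₂ ?_
      rw [hS, Finset.union_insert, Finset.insert_eq_of_mem (Finset.mem_union_left _ hv)]
    · have hσ : D'.σ v = 1 := (spl_iff D' hv).2 (hE v (Finset.mem_insert_self v E))
      obtain ⟨P, hP⟩ := (t_OVER F H v).1
      refine pqn_down D' v hv hσ P hP N (ih hE' (addS D' v hv hσ P hP) fun D₂ hS => h D₂ ?_)
      rw [hS]
      change Finset.cons v D'.S hv ∪ E = _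
      rw [Finset.cons_eq_insert, Finset.insert_union, Finset.union_insert]

/-- The index of the group generated by the classes of the prime ideals of `𝓞 H` over `S₁` and over
the elements of `S₂` which do not split completely, in the group generated by the classes of the
prime ideals over `S₁` and over `S₂`. -/
def classFactor (H : Type) [Field H] [NumberField H] [Algebra F H]
    (S₁ S₂ : Finset (HeightOneSpectrum (𝓞 F))) : ℕ :=
  (clsGroup H ((S₁ : Set (HeightOneSpectrum (𝓞 F))) ∪ nonSplit H S₂)).relIndex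
    (clsGroup H ((S₁ : Set (HeightOneSpectrum (𝓞 F))) ∪ (S₂ : Set (HeightOneSpectrum (𝓞 F)))))

/-- **The law for Popescu's conjecture up to a factor.** -/
theorem popescuUpTo_law (N : ℕ) (D₁ D₂ : RubinData F H G) (hr : 0 < D₁.r)
    (hns : nonSplit H D₁.S ⊆ nonSplit H D₂.S) (h₁ : PopescuUpTo N D₁) :
    PopescuUpTo (N * classFactor H D₁.S D₂.S) D₂ := by
  classical
  refine (pqn_iff D₂ _).2 (pqn_remove _ (D₁.S \ D₂.S) (fun v hv => ?_) D₂ fun D₃ hS => ?_)
  · rw [Finset.mem_sdiff] at hv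
    by_contra hc
    exact hv.2 (hns ⟨hv.1, fun h' => hc ((spl_iff_splitsIn v).2 h')⟩).1
  · obtain ⟨D₄, hS₄, hr₄, h₄⟩ := pqn_addE0 N D₁ hr ((pqn_iff D₁ N).1 h₁)
      (D₂.S.filter fun v => ¬ SplitsIn H v) (fun v hv => (Finset.mem_filter.1 hv).2)
    obtain ⟨D₅, N₅, hS₅, -, h₅, hdvd⟩ := pqn_addE N D₄ hr₄ h₄ D₂.S
    have hSS : D₅.S = D₃.S := by
      rw [hS₅, hS₄, hS]
      ext v
      simp only [Finset.mem_union, Finset.mem_filter, Finset.mem_sdiff]
      tauto
    have e1 : (D₄.S : Set (HeightOneSpectrum (𝓞 F))) =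
        (D₁.S : Set (HeightOneSpectrum (𝓞 F))) ∪ nonSplit H D₂.S := by
      rw [hS₄]
      ext v
      simp only [Finset.coe_union, Finset.coe_filter]
      rfl
    have e2 : (D₅.S : Set (HeightOneSpectrum (𝓞 F))) =
        (D₁.S : Set (HeightOneSpectrum (𝓞 F))) ∪ (D₂.S : Set (HeightOneSpectrum (𝓞 F))) := by
      rw [hS₅, hS₄]
      ext v
      simp only [Finset.coe_union, Finset.coe_filter, Set.mem_union, Finset.mem_coe,
        Set.mem_ofPred_eq]
      tauto
    rw [e1, e2] at hdvd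
    exact pqn_indep D₅ _ D₃ hSS (pqn_mono hdvd D₅ h₅)

theorem classFactor_dvd (S₁ S₂ : Finset (HeightOneSpectrum (𝓞 F))) :
    classFactor H S₁ S₂ ∣ NumberField.classNumber H := by
  rw [NumberField.classNumber, ← Nat.card_eq_fintype_card]
  unfold classFactor
  exact (Subgroup.relIndex_dvd_index_of_normal _ _).trans (Subgroup.index_dvd_card _)

theorem classFactor_eq_one {S₁ S₂ : Finset (HeightOneSpectrum (𝓞 F))}
    (h : clsGroup H (S₂ : Set (HeightOneSpectrum (𝓞 F))) ≤
      clsGroup H ((S₁ : Set (HeightOneSpectrum (𝓞 F))) ∪ nonSplit H S₂)) :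
    classFactor H S₁ S₂ = 1 := by
  unfold classFactor
  rw [Subgroup.relIndex_eq_one]
  unfold clsGroup
  rw [Subgroup.closure_le]
  rintro _ ⟨P, ⟨v, hv, hP⟩, rfl⟩
  have hP' : Above {v} P := ⟨v, rfl, hP⟩
  rcases hv with hv | hv
  · exact cls_mem (Set.mem_union_left _ hv) hP'
  · exact h (cls_mem hv hP')

end Pool.Agent.U360.PO
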