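import Pool.Agent.U360.AS.Alg2

/-!
# Algebra for Popescu's conjecture
-/

set_option autoImplicit false
set_option linter.unusedSectionVars false

noncomputable section

namespace Pool.Agent.U360.PO

open Pool.Agent.K3h30.RS Pool.Agent.U360.RS Pool.Agent.U360.AS

section

variable {G A : Type} [CommGroup G] [Finite G] [AddCommGroup A] [DistribMulAction G A]

theorem eq_sum_single {R : Type} [CommRing R] [Fintype G] (a : MonoidAlgebra R G) :
    a = ∑ g : G, MonoidAlgebra.single g (a.coeff g) := by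
  classical
  ext γ'
  rw [MonoidAlgebra.coeff_sum, Finsupp.finsetSum_apply, Finset.sum_eq_single γ']
  · rw [MonoidAlgebra.coeff_single, Finsupp.single_eq_same]
  · intro g _ hg
    rw [MonoidAlgebra.coeff_single, Finsupp.single_apply, if_neg hg]
  · intro h; exact absurd (Finset.mem_univ _) h

variable (G A) in
/-- the action of `ℤ[G]` -/
def rho : MonoidAlgebra ℤ G →ₐ[ℤ] Module.End ℤ A :=
  MonoidAlgebra.lift ℤ (Module.End ℤ A) G (DistribMulAction.toModuleEnd ℤ A)

theorem rho_single (γ : G) (k : ℤ) (u : A) :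
    rho G A (MonoidAlgebra.single γ k) u = k • (γ • u) := by
  unfold rho
  rw [MonoidAlgebra.lift_single]
  rfl

theorem rho_mul (a b : MonoidAlgebra ℤ G) (u : A) :
    rho G A (a * b) u = rho G A a (rho G A b u) := by
  rw [map_mul]
  rfl

theorem rho_int (k : ℤ) (u : A) : rho G A (k : MonoidAlgebra ℤ G) u = k • u := by
  rw [map_intCast]
  rfl

theorem rho_sum {m : ℕ} (d : Fin m → MonoidAlgebra ℤ G) (u : A) :
    rho G A (∑ j, d j) u = ∑ j, rho G A (d j) u := by
  rw [map_sum, LinearMap.sum_apply]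

theorem rho_delta (σ : G) (q : ℕ) (u : A) :
    rho G A (1 - MonoidAlgebra.single σ⁻¹ (q : ℤ)) u = u - q • (σ⁻¹ • u) := by
  rw [map_sub, map_one, LinearMap.sub_apply, rho_single, natCast_zsmul]
  rfl

theorem map_rho (g : A →+ MonoidAlgebra ℚ G) (hg : IsEq g) (a : MonoidAlgebra ℤ G) (u : A) :
    g (rho G A a u) = toQ a * g u := by
  have := Fintype.ofFinite G
  conv_lhs => rw [eq_sum_single a]
  conv_rhs => rw [eq_sum_single a]
  rw [map_sum, LinearMap.sum_apply, map_sum, map_sum, Finset.sum_mul]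
  refine Finset.sum_congr rfl fun γ _ => ?_
  rw [rho_single, map_zsmul, hg, toQ, MonoidAlgebra.mapRingHom_single, ← smul_mul_assoc,
    MonoidAlgebra.smul_single, zsmul_eq_mul, mul_one]
  rfl

theorem rho_mem (B : AddSubgroup A) (hB : ∀ (γ : G), ∀ u ∈ B, γ • u ∈ B)
    (a : MonoidAlgebra ℤ G) {u : A} (hu : u ∈ B) : rho G A a u ∈ B := by
  have := Fintype.ofFinite G
  rw [eq_sum_single a, map_sum, LinearMap.sum_apply]
  refine B.sum_mem fun γ _ => ?_
  rw [rho_single]
  exact B.zsmul_mem (hB γ u hu) _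

/-- homomorphisms to `ℚ` separate the points up to torsion -/
theorem fin_of_sep [AddGroup.FG A] (z : A) (h : ∀ κ : A →+ ℚ, κ z = 0) :
    IsOfFinAddOrder z := by
  by_contra hz
  have hinj : Function.Injective ((zmultiplesHom A) z) := by
    rw [injective_iff_map_eq_zero]
    intro n hn
    by_contra hn0
    apply hz
    rw [isOfFinAddOrder_iff_zsmul_eq_zero]
    exact ⟨n, hn0, hn⟩
  obtain ⟨κ, hκ⟩ := (Module.Baer.of_divisible ℚ).extension_property_addMonoidHom _ hinj
    ((zmultiplesHom ℚ) 1)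
  have h1 := DFunLike.congr_fun hκ (1 : ℤ)
  rw [AddMonoidHom.comp_apply] at h1
  simp only [zmultiplesHom_apply, one_smul] at h1
  rw [h κ] at h1
  exact one_ne_zero h1.symm

/-- the same for `G`-homomorphisms -/
theorem fin_of_sep' [AddGroup.FG A] (z : A)
    (h : ∀ g : A →+ MonoidAlgebra ℚ G, IsEq g → g z = 0) : IsOfFinAddOrder z := by
  refine fin_of_sep z fun κ => ?_
  have h1 := h (toGQ κ) fun γ a => toGQ_smul κ γ a
  have h2 := coeff_toGQ (G := G) κ z 1
  rw [h1, inv_one, one_smul] at h2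
  exact h2.symm

/-- divisibility in a torsion free subgroup -/
theorem exists_div [AddGroup.FG A] (B : AddSubgroup A)
    (htor : ∀ b ∈ B, IsOfFinAddOrder b → b = 0) (y : A) (hy : y ∈ B) (N : ℕ)
    (h : ∀ κ : A →+ ℚ, (∀ b ∈ B, ∃ z : ℤ, κ b = z) → ∃ z : ℤ, κ y = N * z) :
    ∃ c ∈ B, N • c = y := by
  classical
  have hfinA : Module.Finite ℤ A := Module.Finite.iff_addGroup_fg.2 inferInstance
  let B' : Submodule ℤ A := AddSubgroup.toIntSubmodule B
  have hfinB : Module.Finite ℤ B' := inferInstance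
  have htf : Module.IsTorsionFree ℤ B' := by
    refine Module.isTorsionFree_int_iff_isAddTorsionFree.2 ?_
    refine ⟨fun n hn => ?_⟩
    intro a b hab
    have h1 : n • ((a : A) - (b : A)) = 0 := by
      have h2 : n • (a : A) = n • (b : A) := congrArg Subtype.val hab
      rw [nsmul_sub, h2, sub_self]
    have h2 := htor ((a : A) - (b : A)) (B.sub_mem a.2 b.2)
      (isOfFinAddOrder_iff_nsmul_eq_zero.2 ⟨n, Nat.pos_of_ne_zero hn, h1⟩)
    exact Subtype.ext (sub_eq_zero.1 h2)
  have hfree : Module.Free ℤ B' := Module.free_of_finite_type_torsion_free'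
  let bs := Module.Free.chooseBasis ℤ B'
  have h1 : ∀ i, ∃ z : ℤ, bs.repr ⟨y, hy⟩ i = N * z := by
    intro i
    let κ₀ : B' →+ ℚ := (Int.castAddHom ℚ).comp (bs.coord i).toAddMonoidHom
    obtain ⟨κ, hκ⟩ := (Module.Baer.of_divisible ℚ).extension_property_addMonoidHom
      (B'.subtype.toAddMonoidHom) (Subtype.val_injective) κ₀
    have h2 : ∀ b : B', κ b = ((bs.repr b i : ℤ) : ℚ) := fun b => DFunLike.congr_fun hκ b
    obtain ⟨z, hz⟩ := h κ fun b hb => ⟨bs.repr ⟨b, hb⟩ i, h2 ⟨b, hb⟩⟩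
    refine ⟨z, ?_⟩
    have h3 := h2 ⟨y, hy⟩
    change κ y = _ at h3
    rw [hz] at h3
    exact_mod_cast h3.symm
  choose z hz using h1
  refine ⟨((∑ i, z i • bs i : B') : A), (∑ i, z i • bs i : B').2, ?_⟩
  have h2 : N • (∑ i, z i • bs i : B') = ⟨y, hy⟩ := by
    conv_rhs => rw [← bs.sum_repr ⟨y, hy⟩]
    rw [Finset.smul_sum]
    refine Finset.sum_congr rfl fun i _ => ?_
    rw [hz, mul_smul, natCast_zsmul]
  exact congrArg Subtype.val h2

end

end Pool.Agent.U360.PO
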