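import Pool.Agent.U360.PO.Ind

/-!
# Popescu's conjecture up to a factor: the steps
-/

set_option autoImplicit false
set_option linter.unusedSectionVars false

open NumberField IsDedekindDomain Filter Topology

noncomputable section

namespace Pool.Agent.U360.PO

open Pool.Agent.K3h30.RS Pool.Agent.U360.RS Pool.Agent.U360.AS Pool.Agent.K3h8.RS
  Pool.Agent.K3h25.RS

attribute [local instance] instA

/-- the multiple `N u` -/
def smulW {H G : Type} [Field H] [NumberField H] [CommGroup G] [MulSemiringAction G H]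
    {U : Subgroup Hˣ} {r : ℕ} (N : ℕ) (u : Wedge G r U) : Wedge G r U where
  n := u.n
  c k := (N : MonoidAlgebra ℚ G) * u.c k
  x := u.x

variable {F H G : Type} [Field F] [NumberField F] [Field H] [NumberField H] [Algebra F H]
  [CommGroup G] [Finite G] [MulSemiringAction G H]

theorem wval_smulW (D : RubinData F H G) {U : Subgroup Hˣ} (hU : U ≤ US D) (N : ℕ)
    (f : Fin D.r → Additive (US D) →+ MonoidAlgebra ℚ G) (u : Wedge G D.r U) :
    wval D hU f (smulW N u) = (N : MonoidAlgebra ℚ G) * wval D hU f u := by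
  unfold wval
  rw [Finset.mul_sum]
  refine Finset.sum_congr rfl fun k _ => ?_
  rw [← mul_assoc]
  rfl

theorem value_smulW {U : Subgroup Hˣ} {r : ℕ} (N : ℕ) (u : Wedge G r U)
    (ψ : Fin r → GHom G U) : (smulW N u).value ψ = (N : MonoidAlgebra ℚ G) * u.value ψ := by
  unfold Wedge.value
  rw [Finset.mul_sum]
  refine Finset.sum_congr rfl fun k _ => ?_
  rw [← mul_assoc]
  rfl

theorem intP_of_wval (D : RubinData F H G) {U₁ U₂ : Subgroup Hˣ} (hU₁ : U₁ ≤ US D)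
    (hU₂ : U₂ ≤ US D) (u₁ : Wedge G D.r U₁) (u₂ : Wedge G D.r U₂)
    (h : ∀ f : Fin D.r → Additive (US D) →+ MonoidAlgebra ℚ G, (∀ j, IsEquiv D (f j)) →
      wval D hU₁ f u₁ = wval D hU₂ f u₂) (t : HeightOneSpectrum (𝓞 F))
    (h₁ : IntP D hU₁ u₁ t) : IntP D hU₂ u₂ t := by
  intro i f hf1 hf2 hf3
  rw [← h f hf1]
  exact h₁ i f hf1 hf2 hf3

/-- **Popescu's conjecture up to the factor `N`** for the data `D`: `N w_H η'` belongs to `Λ`. The
element `η'` is in `ℚ ⋀^r E_S` (given by `u`) and for all `φ_j` in `Hom_G (E_S, ℤ[G])`, `j ≠ i`, the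
element `N w_H (⋀_{j ≠ i} φ_j) (u)` of `ℚ E_S` is the image of an element `ε` of `E_S` such that
`H (ε ^ (1 / w_H)) / F` is abelian; here the element of `ℚ E_S` is given by its values at all `g` in
`Hom_G (E_S, ℤ[G])`. -/
def PopescuUpTo (N : ℕ) (D : RubinData F H G) : Prop :=
  ∃ u : Wedge G D.r (D.U ∅), D.InER u ∧ D.IsStark ∅ u ∧
    ∀ (φ : Fin D.r → GHom G (D.U ∅)) (i : Fin D.r), ∃ ε : D.U ∅,
      InAb F (Units.torsionOrder H) (ε : Hˣ) ∧ ∀ g : GHom G (D.U ∅),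
        (N : MonoidAlgebra ℚ G) * (Units.torsionOrder H : MonoidAlgebra ℚ G) *
          u.value (Function.update φ i g) = toQ (g.f (Additive.ofMul ε))

/-- the property used in the proofs -/
def PQN (N : ℕ) (D : RubinData F H G) : Prop :=
  ∃ u : Wedge G D.r (D.U ∅), D.InER u ∧ D.IsStark ∅ u ∧
    ∃ bad : Finset (HeightOneSpectrum (𝓞 F)), ∀ t, t ∉ bad → IntP D (U_le D ∅) (smulW N u) t

theorem popescuUpTo_one (D : RubinData F H G) : PopescuUpTo 1 D ↔ Popescu D := by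
  unfold PopescuUpTo Popescu
  simp only [Nat.cast_one, one_mul]

theorem pqn_mono {N M : ℕ} (h : N ∣ M) (D : RubinData F H G) (hq : PQN N D) : PQN M D := by
  obtain ⟨k, rfl⟩ := h
  obtain ⟨u, hE, hS, bad, hI⟩ := hq
  refine ⟨u, hE, hS, bad, fun t ht i f hf1 hf2 hf3 => ?_⟩
  have h1 := hI t ht i f hf1 hf2 hf3
  rw [wval_smulW] at h1 ⊢
  have e : D.delta {t} * (((N * k : ℕ) : MonoidAlgebra ℚ G) * wval D (U_le D ∅) f u) =
      (k : MonoidAlgebra ℚ G) * (D.delta {t} * ((N : MonoidAlgebra ℚ G) *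
        wval D (U_le D ∅) f u)) := by
    push_cast
    ring
  rw [e]
  exact (ZG G).mul_mem (natCast_mem (ZG G) k) h1

variable [hG : IsGaloisGroup G F H] (D : RubinData F H G)

theorem pqn_iff (N : ℕ) : PopescuUpTo N D ↔ PQN N D := by
  constructor
  · rintro ⟨u, hE, hS, h⟩
    obtain ⟨bad, hb⟩ := intP_of_values D (smulW N u) (fun φ i => by
      obtain ⟨ε, h1, h2⟩ := h φ i
      refine ⟨ε, h1, fun g => ?_⟩
      rw [value_smulW, ← h2 g]
      ring)
    exact ⟨u, hE, hS, bad, hb⟩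
  · rintro ⟨u, hE, hS, bad, hI⟩
    refine ⟨u, hE, hS, fun φ i => ?_⟩
    obtain ⟨ε, h1, h2⟩ := values_of_intP D (smulW N u) bad hI φ i
    refine ⟨ε, h1, fun g => ?_⟩
    rw [← h2 g, value_smulW]
    ring

theorem pqn_addN (N : ℕ) (v : HeightOneSpectrum (𝓞 F)) (hv : v ∉ D.S) (hσ : D.σ v ≠ 1)
    (h : PQN N D) : PQN N (addN D v hv hσ) := by
  obtain ⟨u, hE, hS, bad, hI⟩ := h
  obtain ⟨u', hE', hS', hu⟩ := stark_addN D v hv hσ u hE hS
  refine ⟨u', hE', hS', bad, fun t ht => intP_addN D v hv hσ (smulW N u) (smulW N u')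
    (fun f => ?_) t (hI t ht)⟩
  rw [wval_smulW (addN D v hv hσ), hu, wval_smulW]
  ring

theorem pqn_indep (N : ℕ) (D' : RubinData F H G) (hS : D.S = D'.S) (h : PQN N D) :
    PQN N D' := by
  classical
  obtain ⟨u, hE, hSt, bad, hI⟩ := h
  have hsub : D.S ⊆ D'.S := by rw [hS]
  obtain ⟨π, γ, u', hE', hS', hu⟩ := stark_indep D D' hS hsub u hE hSt
  refine ⟨u', hE', hS', bad ∪ D.S, fun t ht => ?_⟩
  rw [Finset.mem_union, not_or] at ht
  refine intP_indep D D' hS hsub (smulW N u) π γ (smulW N u') (fun f => ?_) t ht.2 (hI t ht.1)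
  rw [wval_smulW, hu, wval_smulW]
  ring

variable (v : HeightOneSpectrum (𝓞 F)) (hv : v ∉ D.S) (hσ : D.σ v = 1)
  (P : HeightOneSpectrum (𝓞 H)) (hP : Above {v} P)

theorem single_neg_inv (h : ℕ) (hh : 0 < h) :
    (MonoidAlgebra.single (1 : G) (-((h : ℚ)⁻¹)) : MonoidAlgebra ℚ G) *
      (h : MonoidAlgebra ℚ G) = -1 := by
  have e2 : (h : MonoidAlgebra ℚ G) = MonoidAlgebra.single 1 (h : ℚ) := by
    rw [← nsmul_one, MonoidAlgebra.one_def, MonoidAlgebra.smul_single, nsmul_one]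
  have hh' : (h : ℚ) ≠ 0 := by exact_mod_cast hh.ne'
  rw [e2, MonoidAlgebra.single_mul_single, one_mul, neg_mul, inv_mul_cancel₀ hh',
    MonoidAlgebra.one_def, MonoidAlgebra.single_neg]

theorem wval_wedgeUp_smul (h N : ℕ) (hh : 0 < h) (ε : Hˣ)
    (hε : ε ∈ US (addS D v hv hσ P hP)) (u : Wedge G D.r (D.U ∅))
    (f : Fin (addS D v hv hσ P hP).r → Additive (US (addS D v hv hσ P hP)) →+
      MonoidAlgebra ℚ G) :
    wval (addS D v hv hσ P hP) (U_le _ ∅) f (wedgeUp D v hv hσ P hP 1 ε hε (smulW N u)) =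
      ((N * h : ℕ) : MonoidAlgebra ℚ G) *
        wval (addS D v hv hσ P hP) (U_le _ ∅) f (wedgeUp D v hv hσ P hP h ε hε u) := by
  unfold wval
  rw [Finset.mul_sum]
  refine Finset.sum_congr rfl fun k _ => ?_
  rw [← mul_assoc]
  refine congrArg (fun z => z * Matrix.det (Matrix.of fun i j => f i (Additive.ofMul
    ⟨((wedgeUp D v hv hσ P hP h ε hε u).x k j : Hˣ),
      U_le _ ∅ ((wedgeUp D v hv hσ P hP h ε hε u).x k j).2⟩))) ?_
  change MonoidAlgebra.single 1 (-(((1 : ℕ) : ℚ)⁻¹)) * ((N : MonoidAlgebra ℚ G) * u.c k) =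
    ((N * h : ℕ) : MonoidAlgebra ℚ G) * (MonoidAlgebra.single 1 (-((h : ℚ)⁻¹)) * u.c k)
  have e1 := single_neg_inv (G := G) h hh
  have e2 := single_neg_inv (G := G) 1 one_pos
  rw [Nat.cast_one, Nat.cast_one, mul_one] at e2
  rw [Nat.cast_one, e2]
  push_cast
  linear_combination (-(N : MonoidAlgebra ℚ G) * u.c k) * e1

theorem pqn_addS (N : ℕ) (hr : 0 < D.r) (h : ℕ) (hh : 0 < h) (ε : Hˣ)
    (hε : ε ∈ US (addS D v hv hσ P hP)) (hO : OG G P ε = (h : MonoidAlgebra ℤ G))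
    (hq : PQN N D) : PQN (N * h) (addS D v hv hσ P hP) := by
  obtain ⟨u, hE, hS, bad₀, hI⟩ := hq
  obtain ⟨bad, hb⟩ := intP_addS D v hv hσ P hP hr ε hε (smulW N u) bad₀ hI
  refine ⟨wedgeUp D v hv hσ P hP h ε hε u, inER_wedgeUp D v hv hσ P hP h ε hε u hE,
    isStark_wedgeUp D v hv hσ P hP h hh ε hε hO u hS, bad, fun t ht =>
    intP_of_wval (addS D v hv hσ P hP) (U_le _ ∅) (U_le _ ∅) _ _ (fun f _ => ?_) t (hb t ht)⟩
  rw [wval_smulW (addS D v hv hσ P hP)]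
  exact wval_wedgeUp_smul D v hv hσ P hP h N hh ε hε u f

theorem pqn_down (N : ℕ) (hq : PQN N (addS D v hv hσ P hP)) : PQN N D := by
  classical
  obtain ⟨u', e', s', bad, hI⟩ := hq
  obtain ⟨u₀, e₀, s₀⟩ := stark_down D v hv hσ P hP ⟨u', e', s'⟩
  obtain ⟨h, ε, hh, hε, hO⟩ := exists_eps_pow D v hv hσ P hP
  refine ⟨u₀, e₀, s₀, bad ∪ D.S ∪ {v}, fun t ht => ?_⟩
  simp only [Finset.mem_union, not_or, Finset.mem_singleton] at ht
  obtain ⟨⟨htb, htS⟩, htv⟩ := ht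
  refine intP_down D v hv hσ P hP h hh ε hε hO (smulW N u₀) t htS htv ?_
  refine intP_of_wval (addS D v hv hσ P hP) (U_le _ ∅) (U_le _ ∅) (smulW N u') _
    (fun f hf => ?_) t (hI t htb)
  have h1 := t_UNIQ' F H G (addS D v hv hσ P hP) ∅ ∅ _ _ (U_le _ ∅) (U_le _ ∅) u'
    (wedgeUp D v hv hσ P hP h ε hε u₀) e' (inER_wedgeUp D v hv hσ P hP h ε hε u₀ e₀) s'
    (isStark_wedgeUp D v hv hσ P hP h hh ε hε hO u₀ s₀) f hf
  have h2 : (addS D v hv hσ P hP).delta ∅ = 1 := by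
    unfold RubinData.delta
    rw [Finset.prod_empty]
  rw [h2, one_mul, one_mul] at h1
  rw [wval_smulW (addS D v hv hσ P hP), h1]
  apply natCast_cancel hh
  have e1 := wval_wedgeUp_smul D v hv hσ P hP h N hh ε hε u₀ f
  have e2 := wval_wedgeUp_smul D v hv hσ P hP h 1 hh ε hε (smulW N u₀) f
  have e3 : wval (addS D v hv hσ P hP) (U_le _ ∅) f
      (wedgeUp D v hv hσ P hP 1 ε hε (smulW 1 (smulW N u₀))) =
      wval (addS D v hv hσ P hP) (U_le _ ∅) f
      (wedgeUp D v hv hσ P hP 1 ε hε (smulW N u₀)) := by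
    unfold wval
    refine Finset.sum_congr rfl fun k _ => ?_
    refine congrArg (fun z => z * Matrix.det (Matrix.of fun i j => f i (Additive.ofMul
      ⟨((wedgeUp D v hv hσ P hP 1 ε hε (smulW N u₀)).x k j : Hˣ),
        U_le _ ∅ ((wedgeUp D v hv hσ P hP 1 ε hε (smulW N u₀)).x k j).2⟩))) ?_
    change MonoidAlgebra.single 1 (-(((1 : ℕ) : ℚ)⁻¹)) * (((1 : ℕ) : MonoidAlgebra ℚ G) *
      ((N : MonoidAlgebra ℚ G) * u₀.c k)) =
      MonoidAlgebra.single 1 (-(((1 : ℕ) : ℚ)⁻¹)) * ((N : MonoidAlgebra ℚ G) * u₀.c k)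
    rw [Nat.cast_one, Nat.cast_one, one_mul]
  rw [e3, e1, one_mul] at e2
  rw [← e2]
  push_cast
  ring

end Pool.Agent.U360.PO
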