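import Pool.Agent.U360.PO.Step

/-!
# Popescu's conjecture: removing a prime ideal which splits completely
-/

set_option autoImplicit false
set_option linter.unusedSectionVars false

open NumberField IsDedekindDomain Filter Topology

noncomputable section

namespace Pool.Agent.U360.PO

open Pool.Agent.K3h30.RS Pool.Agent.U360.RS Pool.Agent.U360.AS Pool.Agent.K3h8.RS
  Pool.Agent.K3h25.RS

attribute [local instance] instA

variable {F H G : Type} [Field F] [NumberField F] [Field H] [NumberField H] [Algebra F H]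
  [CommGroup G] [Finite G] [MulSemiringAction G H]

variable [hG : IsGaloisGroup G F H] (D : RubinData F H G) (v : HeightOneSpectrum (𝓞 F))
  (hv : v ∉ D.S) (hσ : D.σ v = 1) (P : HeightOneSpectrum (𝓞 H)) (hP : Above {v} P)

/-- independence of the representation of the element -/
theorem intP_congr {U₁ U₂ : Subgroup Hˣ} (hU₁ : U₁ ≤ US D) (hU₂ : U₂ ≤ US D)
    (u₁ : Wedge G D.r U₁) (u₂ : Wedge G D.r U₂) (e₁ : D.InER u₁) (e₂ : D.InER u₂)
    (s₁ : D.IsStark ∅ u₁) (s₂ : D.IsStark ∅ u₂) (t : HeightOneSpectrum (𝓞 F))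
    (h : IntP D hU₁ u₁ t) : IntP D hU₂ u₂ t := by
  intro i f hf1 hf2 hf3
  have h1 := t_UNIQ' F H G D ∅ ∅ U₁ U₂ hU₁ hU₂ u₁ u₂ e₁ e₂ s₁ s₂ f hf1
  have h2 : D.delta ∅ = 1 := by
    unfold RubinData.delta
    rw [Finset.prod_empty]
  rw [h2, one_mul, one_mul] at h1
  rw [← h1]
  exact h i f hf1 hf2 hf3

/-- extension of the homomorphisms -/
theorem exists_extend₀ (f : Additive (US D) →+ MonoidAlgebra ℚ G) (hf : IsEquiv D f)
    (hi : ∀ a, f a ∈ ZG G) :
    ∃ f' : Additive (US (addS D v hv hσ P hP)) →+ MonoidAlgebra ℚ G,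
      IsEquiv (addS D v hv hσ P hP) f' ∧ (∀ a, f' a ∈ ZG G) ∧
      ∀ a, f' (inc D v hv hσ P hP a) = f a := by
  let o : Additive (US (addS D v hv hσ P hP)) →+ MonoidAlgebra ℤ G := (OGL P).comp
    (MonoidHom.toAdditive (US (addS D v hv hσ P hP)).subtype)
  have ho : ∀ b, o b = OG G P ((Additive.toMul b : US (addS D v hv hσ P hP)) : Hˣ) :=
    fun b => rfl
  obtain ⟨ρ, hρ1, hρ2⟩ := exists_retract o
  let ρ' : Additive (US (addS D v hv hσ P hP)) →+ Additive (US D) :=
    AddMonoidHom.mk' (fun b => Additive.ofMul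
    ⟨((Additive.toMul (ρ b) : US (addS D v hv hσ P hP)) : Hˣ),
      mem_of_OG D v hv hσ P hP (Additive.toMul (ρ b)).2 (hρ1 b)⟩) (by
    intro a b
    apply Additive.toMul.injective
    apply Subtype.ext
    change ((Additive.toMul (ρ (a + b)) : US (addS D v hv hσ P hP)) : Hˣ) =
      ((Additive.toMul (ρ a) : US (addS D v hv hσ P hP)) : Hˣ) *
        ((Additive.toMul (ρ b) : US (addS D v hv hσ P hP)) : Hˣ)
    rw [map_add]
    rfl)
  have hρ' : ∀ b, ((Additive.toMul (ρ' b) : US D) : Hˣ) =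
    ((Additive.toMul (ρ b) : US (addS D v hv hσ P hP)) : Hˣ) := fun b => rfl
  let κ : Additive (US D) →+ ℚ := AddMonoidHom.mk' (fun a => (f a).coeff 1) (by
    intro a b
    rw [map_add, MonoidAlgebra.coeff_add]
    rfl)
  refine ⟨toGQ (κ.comp ρ'), isEquiv_of_isEq _ (fun γ a => toGQ_smul _ γ a), ?_, ?_⟩
  · intro a
    rw [mem_range_toQ]
    intro γ
    rw [coeff_toGQ]
    have h2 : f (ρ' (γ⁻¹ • a)) ∈ (toQ (G := G)).range := hi _
    rw [mem_range_toQ] at h2
    exact h2 1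
  · intro a
    ext γ
    rw [coeff_toGQ, ← inc_smul]
    have h1 : ρ' (inc D v hv hσ P hP (γ⁻¹ • a)) = γ⁻¹ • a := by
      apply Additive.toMul.injective
      apply Subtype.ext
      rw [hρ', hρ2]
      · rfl
      · rw [ho]
        exact OG_of_mem D v hv P hP (Additive.toMul (γ⁻¹ • a)).2
    change κ (ρ' (inc D v hv hσ P hP (γ⁻¹ • a))) = _
    rw [h1, (isEq_of_isEquiv D hf).coeff]
    rfl

/-- **Integrality for `S` from `S ∪ {v}`.** -/
theorem intP_down (h : ℕ) (hh : 0 < h) (ε : Hˣ) (hε : ε ∈ US (addS D v hv hσ P hP))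
    (hO : OG G P ε = (h : MonoidAlgebra ℤ G)) (u₀ : Wedge G D.r (D.U ∅))
    (t : HeightOneSpectrum (𝓞 F)) (ht : t ∉ D.S) (htv : t ≠ v)
    (hI : IntP (addS D v hv hσ P hP) (U_le _ ∅) (wedgeUp D v hv hσ P hP h ε hε u₀) t) :
    IntP D (U_le D ∅) u₀ t := by
  classical
  intro i₀ f hf1 hf2 hf3
  have hex : ∀ i, ∃ f' : Additive (US (addS D v hv hσ P hP)) →+ MonoidAlgebra ℚ G,
      IsEquiv (addS D v hv hσ P hP) f' ∧ (i ≠ i₀ → ∀ a, f' a ∈ ZG G) ∧
      (i = i₀ → IntOn (addS D v hv hσ P hP) {t} f') ∧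
      ∀ a, f' (inc D v hv hσ P hP a) = f i a := by
    intro i
    by_cases hi : i = i₀
    · obtain ⟨f', h1, h2, h3⟩ := exists_extend D v hv hσ P hP t ht htv (f i) (hf1 i)
        (hi ▸ hf3)
      exact ⟨f', h1, fun h => absurd hi h, fun _ => h2, h3⟩
    · obtain ⟨f', h1, h2, h3⟩ := exists_extend₀ D v hv hσ P hP (f i) (hf1 i) (hf2 i hi)
      exact ⟨f', h1, fun _ => h2, fun h => absurd h hi, h3⟩
  choose f' hf1' hf2' hf3' hf4 using hex
  let E : Fin (D.r + 1) → Additive (US (addS D v hv hσ P hP)) →+ MonoidAlgebra ℚ G :=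
    Fin.snoc (α := fun _ => Additive (US (addS D v hv hσ P hP)) →+ MonoidAlgebra ℚ G) f'
      (ordF D v hv hσ P hP)
  have hE1 : ∀ i, E (Fin.castSucc i) = f' i := fun i => Fin.snoc_castSucc
    (α := fun _ => Additive (US (addS D v hv hσ P hP)) →+ MonoidAlgebra ℚ G) _ _ i
  have hE2 : E (Fin.last D.r) = ordF D v hv hσ P hP := Fin.snoc_last
    (α := fun _ => Additive (US (addS D v hv hσ P hP)) →+ MonoidAlgebra ℚ G) _ _
  have h1 := hI (Fin.castSucc i₀) E (fun i => by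
    refine Fin.lastCases ?_ (fun i => ?_) i
    · rw [hE2]
      intro γ x y hxy
      rw [ordF_apply, ordF_apply, hxy, OG_act, map_mul]
      congr 1
      simp [toQ]
    · rw [hE1]
      exact hf1' i) (fun i => by
    refine Fin.lastCases ?_ (fun i => ?_) i
    · intro _ a
      rw [hE2]
      exact ⟨_, rfl⟩
    · intro hne a
      rw [hE1]
      exact hf2' i (fun h => hne (by rw [h])) a) (by
    rw [hE1]
    exact hf3' i₀ rfl)
  have h2 : wval (addS D v hv hσ P hP) (U_le _ ∅) E (wedgeUp D v hv hσ P hP h ε hε u₀) =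
      -wval D (U_le D ∅) f u₀ := by
    rw [wval_wedgeUp, Y_apply]
    unfold wval
    rw [← Finset.sum_neg_distrib]
    refine Finset.sum_congr rfl fun k _ => ?_
    rw [det_block (R := MonoidAlgebra ℚ G) (r := D.r) _ (Matrix.of fun i j => f i
      (Additive.ofMul ⟨(u₀.x k j : Hˣ), U_le D ∅ (u₀.x k j).2⟩)) (h : MonoidAlgebra ℚ G)]
    · have e1 : (MonoidAlgebra.single (1 : G) (-((h : ℚ)⁻¹)) : MonoidAlgebra ℚ G) *
          (h : MonoidAlgebra ℚ G) = -1 := by
        have e2 : (h : MonoidAlgebra ℚ G) = MonoidAlgebra.single 1 (h : ℚ) := by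
          rw [← nsmul_one, MonoidAlgebra.one_def, MonoidAlgebra.smul_single, nsmul_one]
        have hh' : (h : ℚ) ≠ 0 := by exact_mod_cast hh.ne'
        rw [e2, MonoidAlgebra.single_mul_single, one_mul, neg_mul, inv_mul_cancel₀ hh',
          MonoidAlgebra.one_def, MonoidAlgebra.single_neg]
      linear_combination (u₀.c k * Matrix.det (Matrix.of fun i j => f i
        (Additive.ofMul ⟨(u₀.x k j : Hˣ), U_le D ∅ (u₀.x k j).2⟩))) * e1
    · intro b
      rw [Matrix.of_apply, row_castSucc, hE2]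
      change toQ (OG G P (u₀.x k b : Hˣ)) = 0
      rw [OG_of_mem D v hv P hP (U_le D ∅ (u₀.x k b).2), map_zero]
    · rw [Matrix.of_apply, row_last, hE2, ordF_apply, hO, map_natCast]
    · intro a b
      rw [Matrix.of_apply, row_castSucc, Matrix.of_apply, hE1]
      exact hf4 a _
  rw [h2, mul_neg] at h1
  have h3 := (ZG G).neg_mem h1
  rw [neg_neg] at h3
  exact h3

/-- **Removing a prime ideal which splits completely.** -/
theorem pq_down (hq : PQ (addS D v hv hσ P hP)) : PQ D := by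
  classical
  obtain ⟨u', e', s', bad, hI⟩ := hq
  obtain ⟨u₀, e₀, s₀⟩ := stark_down D v hv hσ P hP ⟨u', e', s'⟩
  obtain ⟨h, ε, hh, hε, hO⟩ := exists_eps_pow D v hv hσ P hP
  refine ⟨u₀, e₀, s₀, bad ∪ D.S ∪ {v}, fun t ht => ?_⟩
  simp only [Finset.mem_union, not_or, Finset.mem_singleton] at ht
  obtain ⟨⟨htb, htS⟩, htv⟩ := ht
  refine intP_down D v hv hσ P hP h hh ε hε hO u₀ t htS htv ?_
  exact intP_congr (addS D v hv hσ P hP) (U_le _ ∅) (U_le _ ∅) u'
    (wedgeUp D v hv hσ P hP h ε hε u₀) e' (inER_wedgeUp D v hv hσ P hP h ε hε u₀ e₀) s'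
    (isStark_wedgeUp D v hv hσ P hP h hh ε hε hO u₀ s₀) t (hI t htb)

end Pool.Agent.U360.PO
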