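import Pool.Agent.U360.PO.Tor
import Pool.Agent.U360.AS.Final

/-!
# Popescu's conjecture and integrality at almost all `t`
-/

set_option autoImplicit false
set_option linter.unusedSectionVars false

open NumberField IsDedekindDomain Filter Topology

noncomputable section

namespace Pool.Agent.U360.PO

open Pool.Agent.K3h30.RS Pool.Agent.U360.RS Pool.Agent.U360.AS Pool.Agent.K3h8.RS
  Pool.Agent.K3h25.RS

attribute [local instance] instA

variable {F H G : Type} [Field F] [NumberField F] [Field H] [NumberField H] [Algebra F H]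
  [CommGroup G] [Finite G] [MulSemiringAction G H]

/-- Popescu's conjecture for the data `D`: the element `η'` is in `ℚ ⋀^r E_S` (given by `u`) and
for all `φ_j` in `Hom_G (E_S, ℤ[G])`, `j ≠ i`, the element `w_H (⋀_{j ≠ i} φ_j) (u)` of `ℚ E_S` is
the image of an element `ε` of `E_S` such that `H (ε ^ (1 / w_H)) / F` is abelian; here the element
of `ℚ E_S` is given by its values at all `g` in `Hom_G (E_S, ℤ[G])`. -/
def Popescu (D : RubinData F H G) : Prop :=
  ∃ u : Wedge G D.r (D.U ∅), D.InER u ∧ D.IsStark ∅ u ∧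
    ∀ (φ : Fin D.r → GHom G (D.U ∅)) (i : Fin D.r), ∃ ε : D.U ∅,
      InAb F (Units.torsionOrder H) (ε : Hˣ) ∧ ∀ g : GHom G (D.U ∅),
        (Units.torsionOrder H : MonoidAlgebra ℚ G) * u.value (Function.update φ i g) =
          toQ (g.f (Additive.ofMul ε))

/-- integrality at `t` for families with at most one element which is not integral everywhere -/
def IntP (D : RubinData F H G) {U : Subgroup Hˣ} (hU : U ≤ US D) (u : Wedge G D.r U)
    (t : HeightOneSpectrum (𝓞 F)) : Prop :=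
  ∀ (i : Fin D.r) (f : Fin D.r → Additive (US D) →+ MonoidAlgebra ℚ G),
    (∀ j, IsEquiv D (f j)) → (∀ j, j ≠ i → ∀ a, f j a ∈ ZG G) → IntOn D {t} (f i) →
    D.delta {t} * wval D hU f u ∈ ZG G

/-- the property used in the proofs -/
def PQ (D : RubinData F H G) : Prop :=
  ∃ u : Wedge G D.r (D.U ∅), D.InER u ∧ D.IsStark ∅ u ∧
    ∃ bad : Finset (HeightOneSpectrum (𝓞 F)), ∀ t, t ∉ bad → IntP D (U_le D ∅) u t

variable [hG : IsGaloisGroup G F H] (D : RubinData F H G)

theorem US_le_U : US D ≤ D.U ∅ := fun _ hx => mem_U_empty D hx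

/-- the homomorphism to `ℚ[G]` of a homomorphism to `ℤ[G]` -/
def toF (ψ : GHom G (D.U ∅)) : Additive (US D) →+ MonoidAlgebra ℚ G :=
  (toQ (G := G)).toAddMonoidHom.comp (ψ.f.comp
    (MonoidHom.toAdditive (Subgroup.inclusion (US_le_U D))))

theorem toF_apply (ψ : GHom G (D.U ∅)) (x : D.U ∅) :
    toF D ψ (Additive.ofMul ⟨(x : Hˣ), U_le D ∅ x.2⟩) = toQ (ψ.f (Additive.ofMul x)) := rfl

theorem toF_isEquiv (ψ : GHom G (D.U ∅)) : IsEquiv D (toF D ψ) := by
  intro γ x y hxy
  have h := ψ.equiv γ ⟨(x : Hˣ), US_le_U D x.2⟩ ⟨(y : Hˣ), US_le_U D y.2⟩ hxy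
  change toQ (ψ.f (Additive.ofMul ⟨(y : Hˣ), US_le_U D y.2⟩)) =
    _ * toQ (ψ.f (Additive.ofMul ⟨(x : Hˣ), US_le_U D x.2⟩))
  rw [h, map_mul]
  congr 1
  simp [toQ]

theorem toF_mem (ψ : GHom G (D.U ∅)) (a : Additive (US D)) : toF D ψ a ∈ ZG G := ⟨_, rfl⟩

theorem exists_toF (f : Additive (US D) →+ MonoidAlgebra ℚ G) (hf : IsEquiv D f)
    (hi : ∀ a, f a ∈ ZG G) : ∃ ψ : GHom G (D.U ∅), toF D ψ = f := by
  obtain ⟨ψ, hψ⟩ := exists_restrict D ∅ f hf fun x _ => hi _
  refine ⟨ψ, ?_⟩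
  refine AddMonoidHom.ext fun a => ?_
  exact hψ ⟨((Additive.toMul a : US D) : Hˣ), US_le_U D (Additive.toMul a).2⟩

theorem wval_toF (u : Wedge G D.r (D.U ∅)) (ψ : Fin D.r → GHom G (D.U ∅)) :
    wval D (U_le D ∅) (fun j => toF D (ψ j)) u = u.value ψ := by
  unfold wval Wedge.value
  refine Finset.sum_congr rfl fun k _ => ?_
  rw [RingHom.map_det]
  rfl

theorem delta_singleton (t : HeightOneSpectrum (𝓞 F)) : D.delta {t} = toQ (dZ D t) := by
  unfold RubinData.delta
  rw [Finset.prod_singleton, toQ_dZ]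

/-- the condition on the element `u` implies the integrality -/
theorem intP_of_values (u : Wedge G D.r (D.U ∅))
    (h : ∀ (φ : Fin D.r → GHom G (D.U ∅)) (i : Fin D.r), ∃ ε : D.U ∅,
      InAb F (Units.torsionOrder H) (ε : Hˣ) ∧ ∀ g : GHom G (D.U ∅),
        (Units.torsionOrder H : MonoidAlgebra ℚ G) * u.value (Function.update φ i g) =
          toQ (g.f (Additive.ofMul ε))) :
    ∃ bad : Finset (HeightOneSpectrum (𝓞 F)), ∀ t, t ∉ bad → IntP D (U_le D ∅) u t := by
  classical
  obtain ⟨w, hw⟩ : ∃ w : ℕ, w = Units.torsionOrder H := ⟨_, rfl⟩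
  have hw0 : 0 < w := by
    rw [hw]
    exact Nat.pos_of_ne_zero (Units.torsionOrder_ne_zero H)
  have hfinN : {v : HeightOneSpectrum (𝓞 F) | v.valuation F (w : F) < 1}.Finite :=
    Pool.Agent.K3h43.RS.finite_lt (H := F) (w : F) (Nat.cast_ne_zero.2 hw0.ne')
  refine ⟨D.S ∪ hfinN.toFinset, fun t ht i f hf1 hf2 hf3 => ?_⟩
  simp only [Finset.mem_union, not_or, Set.Finite.mem_toFinset, Set.mem_ofPred_eq,
    not_lt] at ht
  obtain ⟨htS, htn⟩ := ht
  have htn' : t.valuation F (w : F) = 1 := by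
    refine le_antisymm ?_ htn
    have e : (((w : ℕ) : 𝓞 F) : F) = (w : F) := map_natCast (algebraMap (𝓞 F) F) w
    rw [← e]
    exact t.valuation_le_one (K := F) ((w : ℕ) : 𝓞 F)
  obtain ⟨χ, m, hm0, hm, -, hker, -⟩ := exists_char (G := G) Pool.Agent.K3h44.RS.t_DLOG
    Pool.Agent.K3h44.RS.t_FROBU t_TRANS t_OVER D.S t htS (D.σ t) (D.frob t htS)
  have hBm : ∀ a : Additive (US D), m • a ∈ BL D t := by
    intro a
    obtain ⟨x, rfl⟩ : ∃ x, Additive.ofMul x = a := ⟨Additive.toMul a, rfl⟩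
    rw [← ofMul_pow]
    refine ⟨(x ^ m).2.1, fun w hw => ?_⟩
    rw [Finset.coe_singleton] at hw
    refine (hker (x ^ m)).1 (fun γ => ?_) w hw
    rw [ofMul_pow]
    have h1 := map_nsmul (DistribSMul.toAddMonoidHom (Additive (US D)) γ) m (Additive.ofMul x)
    change χ (DistribSMul.toAddMonoidHom (Additive (US D)) γ (m • Additive.ofMul x)) = 0
    rw [h1, map_nsmul, hm]
  -- the homomorphisms to `ℤ[G]`
  have hg : ∀ j, ∃ ψ : GHom G (D.U ∅), toF D ψ = Function.update f i 0 j := by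
    intro j
    apply exists_toF
    · by_cases hj : j = i
      · rw [hj, Function.update_self]
        intro γ x y _
        simp
      · rw [Function.update_of_ne hj]
        exact hf1 j
    · intro a
      by_cases hj : j = i
      · rw [hj, Function.update_self]
        exact (ZG G).zero_mem
      · rw [Function.update_of_ne hj]
        exact hf2 j hj a
  choose ψ hψ using hg
  obtain ⟨ε, hab, hε⟩ := h ψ i
  -- the multiple of `f i`
  obtain ⟨ψ', hψ'⟩ := exists_toF D (m • f i) (by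
    intro γ x y hxy
    change m • f i (Additive.ofMul y) = _ * (m • f i (Additive.ofMul x))
    rw [hf1 i γ x y hxy, mul_smul_comm]) (by
    intro a
    change m • f i a ∈ ZG G
    rw [← map_nsmul]
    exact hf3 (Additive.toMul (m • a)) (hBm a))
  have h1 := hε ψ'
  rw [← wval_toF, ← toF_apply D ψ' ε, hψ'] at h1
  have h2 : (fun j => toF D (Function.update ψ i ψ' j)) = Function.update f i (m • f i) := by
    funext j
    by_cases hj : j = i
    · rw [hj, Function.update_self, Function.update_self, hψ']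
    · rw [Function.update_of_ne hj, Function.update_of_ne hj, hψ, Function.update_of_ne hj]
  have h3 : wval D (U_le D ∅) (Function.update f i (m • f i)) u =
      (m : MonoidAlgebra ℚ G) * wval D (U_le D ∅) f u := by
    unfold wval
    rw [Finset.mul_sum]
    refine Finset.sum_congr rfl fun k _ => ?_
    have h4 : (Matrix.of fun a b => (Function.update f i (m • f i) a)
        (Additive.ofMul ⟨(u.x k b : Hˣ), U_le D ∅ (u.x k b).2⟩)) =
        (Matrix.of fun a b => f a (Additive.ofMul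
          ⟨(u.x k b : Hˣ), U_le D ∅ (u.x k b).2⟩)).updateRow i
          ((m : MonoidAlgebra ℚ G) • fun b => f i (Additive.ofMul
            ⟨(u.x k b : Hˣ), U_le D ∅ (u.x k b).2⟩)) := by
      ext a b : 1
      rw [Matrix.of_apply, Matrix.updateRow_apply]
      by_cases ha : a = i
      · rw [if_pos ha, ha, Function.update_self]
        change m • _ = (m : MonoidAlgebra ℚ G) * _
        rw [nsmul_eq_mul]
      · rw [if_neg ha, Function.update_of_ne ha, Matrix.of_apply]
    have h5 : (Matrix.of fun a b => f a (Additive.ofMul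
          ⟨(u.x k b : Hˣ), U_le D ∅ (u.x k b).2⟩)).updateRow i
          (fun b => f i (Additive.ofMul ⟨(u.x k b : Hˣ), U_le D ∅ (u.x k b).2⟩)) =
        Matrix.of fun a b => f a (Additive.ofMul
          ⟨(u.x k b : Hˣ), U_le D ∅ (u.x k b).2⟩) := Matrix.updateRow_eq_self _ _
    rw [h4, Matrix.det_updateRow_smul, h5]
    ring
  rw [h2, h3] at h1
  have h6 : (w : MonoidAlgebra ℚ G) * wval D (U_le D ∅) f u =
      f i (Additive.ofMul ⟨(ε : Hˣ), U_le D ∅ ε.2⟩) := by
    apply natCast_cancel hm0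
    rw [← mul_assoc, mul_comm (m : MonoidAlgebra ℚ G), mul_assoc, hw, h1]
    change m • f i (Additive.ofMul ⟨(ε : Hˣ), U_le D ∅ ε.2⟩) = _
    rw [nsmul_eq_mul]
  obtain ⟨τ, hτ⟩ := exists_order H
  rw [← hw] at hτ hab
  obtain ⟨c, hcB, hc⟩ := ab_forward D w hw0 τ hτ ⟨(ε : Hˣ), U_le D ∅ ε.2⟩ hab t htS htn'
  have h7 : D.delta {t} * wval D (U_le D ∅) f u = f i c := by
    apply natCast_cancel hw0
    rw [mul_left_comm, h6, delta_singleton, ← map_rho (f i) (isEq_of_isEquiv D (hf1 i))]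
    have h8 : rho G (Additive (US D)) (dZ D t) (Additive.ofMul ⟨(ε : Hˣ), U_le D ∅ ε.2⟩) =
        w • c := by
      rw [hc]
      exact rho_delta _ _ _
    rw [h8, map_nsmul, nsmul_eq_mul]
  rw [h7]
  exact hf3 (Additive.toMul c) hcB

/-- **Popescu's conjecture implies the integrality.** -/
theorem pq_of_popescu (h : Popescu D) : PQ D := by
  obtain ⟨u, hE, hS, h⟩ := h
  obtain ⟨bad, hb⟩ := intP_of_values D u h
  exact ⟨u, hE, hS, bad, hb⟩

end Pool.Agent.U360.PO
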