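import Pool.Agent.U360.PO.Eq

/-!
# Integrality at almost all `t` implies Popescu's conjecture
-/

set_option autoImplicit false
set_option linter.unusedSectionVars false

open NumberField IsDedekindDomain Filter Topology

noncomputable section

namespace Pool.Agent.U360.PO

open Pool.Agent.K3h30.RS Pool.Agent.U360.RS Pool.Agent.U360.AS Pool.Agent.K3h8.RS
  Pool.Agent.K3h25.RS

attribute [local instance] instA

theorem det_updateRow_expand {R : Type} [CommRing R] {r : ℕ} (M : Matrix (Fin r) (Fin r) R)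
    (i : Fin r) (v : Fin r → R) :
    (M.updateRow i v).det = ∑ j, v j * (M.updateRow i (Pi.single j 1)).det := by
  rw [Matrix.det_eq_sum_mul_adjugate_row (M.updateRow i v) i]
  refine Finset.sum_congr rfl fun j _ => ?_
  rw [Matrix.updateRow_self, Matrix.adjugate_apply, Matrix.updateRow_idem]

theorem exists_denom_fin {G ι : Type} [CommGroup G] [Finite G] [Fintype ι]
    (c : ι → MonoidAlgebra ℚ G) :
    ∃ N : ℕ, 0 < N ∧ ∀ k, ∃ b : MonoidAlgebra ℤ G, toQ b = (N : MonoidAlgebra ℚ G) * c k := by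
  obtain ⟨N, hN, h⟩ := exists_denom_all fun k => c ((Fintype.equivFin ι).symm k)
  refine ⟨N, hN, fun k => ?_⟩
  obtain ⟨b, hb⟩ := h (Fintype.equivFin ι k)
  rw [Equiv.symm_apply_apply] at hb
  exact ⟨b, hb⟩

variable {F H G : Type} [Field F] [NumberField F] [Field H] [NumberField H] [Algebra F H]
  [CommGroup G] [Finite G] [MulSemiringAction G H]

variable [hG : IsGaloisGroup G F H] (D : RubinData F H G)

/-- the integrality implies the condition on the element `u` -/
theorem values_of_intP (u : Wedge G D.r (D.U ∅)) (bad₀ : Finset (HeightOneSpectrum (𝓞 F)))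
    (hI : ∀ t, t ∉ bad₀ → IntP D (U_le D ∅) u t) :
    ∀ (φ : Fin D.r → GHom G (D.U ∅)) (i : Fin D.r), ∃ ε : D.U ∅,
      InAb F (Units.torsionOrder H) (ε : Hˣ) ∧ ∀ g : GHom G (D.U ∅),
        (Units.torsionOrder H : MonoidAlgebra ℚ G) * u.value (Function.update φ i g) =
          toQ (g.f (Additive.ofMul ε)) := by
  classical
  obtain ⟨w, hw⟩ : ∃ w : ℕ, w = Units.torsionOrder H := ⟨_, rfl⟩
  have hw0 : 0 < w := by
    rw [hw]
    exact Nat.pos_of_ne_zero (Units.torsionOrder_ne_zero H)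
  have hfin : {l : HeightOneSpectrum (𝓞 F) | ringChar (𝓞 F ⧸ l.asIdeal) ≤
      Module.finrank ℚ F + 1}.Finite := finite_small F _
  have hfinN : {v : HeightOneSpectrum (𝓞 F) | v.valuation F (w : F) < 1}.Finite :=
    Pool.Agent.K3h43.RS.finite_lt (H := F) (w : F) (Nat.cast_ne_zero.2 hw0.ne')
  obtain ⟨bad, hbd⟩ : ∃ bad : Finset (HeightOneSpectrum (𝓞 F)),
    bad = bad₀ ∪ D.S ∪ hfin.toFinset ∪ hfinN.toFinset := ⟨_, rfl⟩
  have hmem : ∀ l, l ∉ bad → l ∉ bad₀ ∧ (l ∉ D.S ∧
      Module.finrank ℚ F + 1 < ringChar (𝓞 F ⧸ l.asIdeal)) ∧ 1 ≤ l.valuation F (w : F) := by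
    intro l hl
    rw [hbd] at hl
    simp only [Finset.mem_union, not_or, Set.Finite.mem_toFinset, Set.mem_ofPred_eq,
      not_lt, not_le] at hl
    exact ⟨hl.1.1.1, ⟨hl.1.1.2, hl.1.2⟩, hl.2⟩
  have hbad : ∀ l, l ∉ bad → l ∉ D.S ∧
      Module.finrank ℚ F + 1 < ringChar (𝓞 F ⧸ l.asIdeal) := fun l hl => (hmem l hl).2.1
  have htn : ∀ l, l ∉ bad → l.valuation F (w : F) = 1 := by
    intro l hl
    refine le_antisymm ?_ (hmem l hl).2.2
    have e : (((w : ℕ) : 𝓞 F) : F) = (w : F) := map_natCast (algebraMap (𝓞 F) F) w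
    rw [← e]
    exact l.valuation_le_one (K := F) ((w : ℕ) : 𝓞 F)
  have hfg : AddGroup.FG (Additive (US D)) := fgA t_OVER D.S
  intro φ i
  obtain ⟨f, hf⟩ : ∃ f : Fin D.r → Additive (US D) →+ MonoidAlgebra ℚ G,
    f = fun j => toF D (φ j) := ⟨_, rfl⟩
  obtain ⟨x, hx⟩ : ∃ x : Fin u.n → Fin D.r → Additive (US D),
    x = fun k j => Additive.ofMul ⟨(u.x k j : Hˣ), U_le D ∅ (u.x k j).2⟩ := ⟨_, rfl⟩
  obtain ⟨X, hX⟩ : ∃ X : (Additive (US D) →+ MonoidAlgebra ℚ G) → MonoidAlgebra ℚ G,
    X = fun g => wval D (U_le D ∅) (Function.update f i g) u := ⟨_, rfl⟩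
  let a : Fin u.n × Fin D.r → MonoidAlgebra ℚ G := fun p =>
    u.c p.1 * ((Matrix.of fun a b => f a (x p.1 b)).updateRow i (Pi.single p.2 1)).det
  have h1 : ∀ g, X g = ∑ p : Fin u.n × Fin D.r, a p * g (x p.1 p.2) := by
    intro g
    rw [hX, Fintype.sum_prod_type]
    unfold wval
    refine Finset.sum_congr rfl fun k _ => ?_
    have e1 : (Matrix.of fun a b => (Function.update f i g a)
        (Additive.ofMul ⟨(u.x k b : Hˣ), U_le D ∅ (u.x k b).2⟩)) =
        (Matrix.of fun a b => f a (x k b)).updateRow i fun b => g (x k b) := by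
      ext a b : 1
      rw [Matrix.of_apply, Matrix.updateRow_apply]
      by_cases ha : a = i
      · rw [if_pos ha, ha, Function.update_self, hx]
      · rw [if_neg ha, Function.update_of_ne ha, Matrix.of_apply, hx]
    rw [e1, det_updateRow_expand, Finset.mul_sum]
    refine Finset.sum_congr rfl fun j _ => ?_
    change _ = (u.c k * ((Matrix.of fun a b => f a (x k b)).updateRow i
      (Pi.single j 1)).det) * g (x k j)
    ring
  obtain ⟨N, hN, hb⟩ := exists_denom_fin a
  choose b hb using hb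
  obtain ⟨y, hy⟩ : ∃ y : Additive (US D), y = ∑ p, rho G (Additive (US D)) (b p) (x p.1 p.2) :=
    ⟨_, rfl⟩
  have h3 : ∀ g : Additive (US D) →+ MonoidAlgebra ℚ G, IsEq g →
      g y = (N : MonoidAlgebra ℚ G) * X g := by
    intro g hg
    rw [hy, map_sum, h1, Finset.mul_sum]
    refine Finset.sum_congr rfl fun p _ => ?_
    rw [map_rho g hg, hb, mul_assoc]
  -- the elements of `U_{S,t}`
  have h4 : ∀ t, t ∉ bad → ∃ c ∈ BL D t, ∀ g : Additive (US D) →+ MonoidAlgebra ℚ G, IsEq g →
      g c = toQ (dZ D t) * X g := by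
    intro t ht
    have hyt : rho G (Additive (US D)) (dZ D t) y ∈ BL D t := by
      have e1 : rho G (Additive (US D)) (dZ D t) y =
        y - (Ideal.absNorm t.asIdeal) • ((D.σ t)⁻¹ • y) := rho_delta _ _ _
      rw [e1]
      exact bl_delta D t (hbad t ht).1 _
    obtain ⟨c, hc, hNc⟩ := exists_div (BL D t)
      (fun b hb ho => bl_tors D t (hbad t ht).1 (hbad t ht).2 b hb ho) _ hyt N (by
      intro κ hκ
      have hg : IsEq (toGQ (G := G) κ) := fun γ a => toGQ_smul κ γ a
      have hgi : ∀ b ∈ BL D t, toGQ (G := G) κ b ∈ ZG G := by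
        intro b hb
        rw [mem_range_toQ]
        intro γ
        rw [coeff_toGQ]
        exact hκ _ (bl_smul D t γ⁻¹ b hb)
      obtain ⟨z, hz⟩ := hI t (hmem t ht).1 i (Function.update f i (toGQ (G := G) κ)) (by
        intro j
        by_cases hj : j = i
        · rw [hj, Function.update_self]
          exact isEquiv_of_isEq D hg
        · rw [Function.update_of_ne hj, hf]
          exact toF_isEquiv D (φ j)) (by
        intro j hj a
        rw [Function.update_of_ne hj, hf]
        exact toF_mem D (φ j) a) (by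
        rw [Function.update_self]
        exact fun x hx => hgi (Additive.ofMul x) hx)
      refine ⟨z.coeff 1, ?_⟩
      have e1 : toGQ (G := G) κ (rho G (Additive (US D)) (dZ D t) y) =
          (N : MonoidAlgebra ℚ G) * toQ z := by
        rw [map_rho _ hg, h3 _ hg, hz, hX, delta_singleton]
        ring
      have e2 := congrArg (fun v : MonoidAlgebra ℚ G => v.coeff 1) e1
      simp only [nat_smul_eq, coeff_toQ, coeff_toGQ, inv_one, one_smul] at e2
      exact e2)
    refine ⟨c, hc, fun g hg => ?_⟩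
    apply natCast_cancel hN
    rw [← nsmul_eq_mul, ← map_nsmul, hNc, map_rho _ hg, h3 _ hg]
    ring
  choose! c hcB hcg using h4
  obtain ⟨m, l, d, hd⟩ := mem_annI D (torsionOrder_mem (H := H) D bad)
  rw [← hw] at hd
  obtain ⟨ε, hε⟩ : ∃ ε : Additive (US D),
    ε = ∑ j, rho G (Additive (US D)) (d j) (c (l j).1) := ⟨_, rfl⟩
  have h6 : ∀ g : Additive (US D) →+ MonoidAlgebra ℚ G, IsEq g →
      g ε = (w : MonoidAlgebra ℚ G) * X g := by
    intro g hg
    have e1 : (w : MonoidAlgebra ℚ G) = toQ ((w : ℤ) : MonoidAlgebra ℤ G) := by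
      rw [Int.cast_natCast, map_natCast]
    rw [hε, map_sum, e1, hd, map_sum, Finset.sum_mul]
    refine Finset.sum_congr rfl fun j _ => ?_
    rw [map_rho _ hg, hcg _ (l j).2 g hg, map_mul]
    ring
  have h7 : ∀ t, t ∉ bad → w • c t = rho G (Additive (US D)) (dZ D t) ε := by
    intro t ht
    have e1 : ∀ l', l' ∉ bad → rho G (Additive (US D)) (dZ D t) (c l') =
        rho G (Additive (US D)) (dZ D l') (c t) := by
      intro l' hl'
      have e2 : rho G (Additive (US D)) (dZ D t) (c l') =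
        c l' - (Ideal.absNorm t.asIdeal) • ((D.σ t)⁻¹ • c l') := rho_delta _ _ _
      have e3 : rho G (Additive (US D)) (dZ D t) (c l') -
          rho G (Additive (US D)) (dZ D l') (c t) ∈ BL D t := by
        refine (BL D t).sub_mem ?_ (rho_mem _ (fun γ v hv => bl_smul D t γ v hv) _ (hcB t ht))
        rw [e2]
        exact bl_delta D t (hbad t ht).1 _
      refine sub_eq_zero.1 (bl_tors D t (hbad t ht).1 (hbad t ht).2 _ e3 ?_)
      refine fin_of_sep' (G := G) _ fun g hg => ?_
      rw [map_sub, map_rho _ hg, map_rho _ hg, hcg l' hl' g hg, hcg t ht g hg]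
      ring
    have e4 : w • c t = rho G (Additive (US D)) ((w : ℤ) : MonoidAlgebra ℤ G) (c t) := by
      rw [rho_int, natCast_zsmul]
    rw [e4, hd, rho_sum, hε, map_sum]
    refine Finset.sum_congr rfl fun j _ => ?_
    rw [rho_mul, ← e1 _ (l j).2, ← rho_mul, ← rho_mul, mul_comm]
  obtain ⟨x₀, hx₀⟩ : ∃ x₀ : US D, Additive.ofMul x₀ = ε := ⟨Additive.toMul ε, rfl⟩
  have hab : InAb F w (x₀ : Hˣ) := by
    refine ab_backward D bad hbad w hw0 htn x₀ fun t ht => ⟨c t, hcB t ht, ?_⟩
    rw [h7 t ht, hx₀]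
    exact rho_delta _ _ _
  refine ⟨⟨(x₀ : Hˣ), US_le_U D x₀.2⟩, hw ▸ hab, fun g => ?_⟩
  have h8 := h6 (toF D g) (isEq_of_isEquiv D (toF_isEquiv D g))
  rw [hX] at h8
  have h9 : (Function.update f i (toF D g)) = fun j => toF D (Function.update φ i g j) := by
    funext j
    by_cases hj : j = i
    · rw [hj, Function.update_self, Function.update_self]
    · rw [Function.update_of_ne hj, Function.update_of_ne hj, hf]
  dsimp only at h8
  rw [h9, wval_toF, ← hx₀] at h8
  rw [← hw, ← h8]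
  rfl

/-- **The integrality implies Popescu's conjecture.** -/
theorem popescu_of_pq (h : PQ D) : Popescu D := by
  obtain ⟨u, hE, hS, bad₀, hI⟩ := h
  exact ⟨u, hE, hS, values_of_intP D u bad₀ hI⟩

theorem popescu_iff : Popescu D ↔ PQ D := ⟨pq_of_popescu D, popescu_of_pq D⟩

end Pool.Agent.U360.PO
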