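import Pool.Agent.U360.PO.Ind

/-!
# Popescu's conjecture for all `S` is decided by one `S`
-/

set_option autoImplicit false
set_option linter.unusedSectionVars false

open NumberField IsDedekindDomain Filter Topology

noncomputable section

namespace Pool.Agent.U360.PO

open Pool.Agent.K3h30.RS Pool.Agent.U360.RS Pool.Agent.U360.AS Pool.Agent.K3h8.RS
  Pool.Agent.K3h25.RS

variable {F H G : Type} [Field F] [NumberField F] [Field H] [NumberField H] [Algebra F H]
  [CommGroup G] [Finite G] [MulSemiringAction G H]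

/-- Popescu's conjecture for all data whose set `S'` contains all prime ideals of the set of `D`
which do not split completely in `H`. -/
def PopescuAll (D : RubinData F H G) : Prop :=
  ∀ D' : RubinData F H G, (∀ v ∈ D.S, v ∉ D'.S → SplitsIn H v) → Popescu D'

variable [hG : IsGaloisGroup G F H]

theorem exists_addP (V₀ : Finset (HeightOneSpectrum (𝓞 F))) (hV : Good (F := F) H G V₀)
    (D₁ : RubinData F H G) (hVS : V₀ ⊆ D₁.S) (hr : 0 < D₁.r) (h₁ : PQ D₁)
    [DecidableEq (HeightOneSpectrum (𝓞 F))] (E : Finset (HeightOneSpectrum (𝓞 F))) :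
    ∃ D₂ : RubinData F H G, D₂.S = D₁.S ∪ E ∧ 0 < D₂.r ∧ PQ D₂ := by
  induction E using Finset.induction_on with
  | empty => exact ⟨D₁, by rw [Finset.union_empty], hr, h₁⟩
  | insert v E hvE ih =>
    obtain ⟨D₂, hS, hr₂, h₂⟩ := ih
    by_cases hv : v ∈ D₂.S
    · refine ⟨D₂, ?_, hr₂, h₂⟩
      rw [Finset.union_insert, ← hS, Finset.insert_eq_of_mem hv]
    · by_cases hσ : D₂.σ v = 1
      · obtain ⟨P, hP⟩ := (t_OVER F H v).1
        obtain ⟨ε, hε, hO⟩ := exists_gen_eps D₂ V₀ hV
          (hVS.trans (by rw [hS]; exact Finset.subset_union_left)) v hv hσ P hP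
        refine ⟨addS D₂ v hv hσ P hP, ?_, Nat.succ_pos _,
          pq_addS D₂ v hv hσ P hP hr₂ ε hε hO h₂⟩
        change Finset.cons v D₂.S hv = _
        rw [Finset.cons_eq_insert, hS, Finset.union_insert]
      · refine ⟨addN D₂ v hv hσ, ?_, hr₂, pq_addN D₂ v hv hσ h₂⟩
        change Finset.cons v D₂.S hv = _
        rw [Finset.cons_eq_insert, hS, Finset.union_insert]

/-- **Enlarging `S`.** -/
theorem pq_up (V₀ : Finset (HeightOneSpectrum (𝓞 F))) (hV : Good (F := F) H G V₀)
    (D₁ : RubinData F H G) (hVS : V₀ ⊆ D₁.S) (hr : 0 < D₁.r) (h₁ : PQ D₁)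
    (D' : RubinData F H G) (hsub : D₁.S ⊆ D'.S) : PQ D' := by
  classical
  obtain ⟨D₂, hS, -, h₂⟩ := exists_addP V₀ hV D₁ hVS hr h₁ D'.S
  rw [Finset.union_eq_right.2 hsub] at hS
  exact pq_indep D₂ D' hS h₂

/-- **Removing prime ideals which split completely.** -/
theorem pq_remove [DecidableEq (HeightOneSpectrum (𝓞 F))]
    (E : Finset (HeightOneSpectrum (𝓞 F))) : (∀ v ∈ E, Spl H G v) → ∀ D' : RubinData F H G,
    (∀ D₂ : RubinData F H G, D₂.S = D'.S ∪ E → PQ D₂) → PQ D' := by
  induction E using Finset.induction_on with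
  | empty =>
    intro _ D' h
    exact h D' (by rw [Finset.union_empty])
  | insert v E hvE ih =>
    intro hE D' h
    have hE' : ∀ v ∈ E, Spl H G v := fun u hu => hE u (Finset.mem_insert_of_mem hu)
    by_cases hv : v ∈ D'.S
    · refine ih hE' D' fun D₂ hS => h D₂ ?_
      rw [hS, Finset.union_insert, Finset.insert_eq_of_mem (Finset.mem_union_left _ hv)]
    · have hσ : D'.σ v = 1 := (spl_iff D' hv).2 (hE v (Finset.mem_insert_self v E))
      obtain ⟨P, hP⟩ := (t_OVER F H v).1
      refine pq_down D' v hv hσ P hP (ih hE' (addS D' v hv hσ P hP) fun D₂ hS => h D₂ ?_)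
      rw [hS]
      change Finset.cons v D'.S hv ∪ E = _
      rw [Finset.cons_eq_insert, Finset.insert_union, Finset.union_insert]

/-- **One `S` decides.** -/
theorem popescuAll_of (D₁ : RubinData F H G) (hr : 0 < D₁.r) (hV : Generates (F := F) H D₁.S)
    (h₁ : Popescu D₁) : PopescuAll D₁ := by
  classical
  intro D' hD'
  refine popescu_of_pq D' (pq_remove (D₁.S \ D'.S) (fun v hv => ?_) D' fun D₂ hS => ?_)
  · rw [Finset.mem_sdiff] at hv
    exact (spl_iff_splitsIn v).2 (hD' v hv.1 hv.2)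
  · refine pq_up D₁.S ((good_iff D₁.S).2 hV) D₁ subset_rfl hr (pq_of_popescu D₁ h₁) D₂ ?_
    rw [hS]
    intro v hv
    by_cases h : v ∈ D'.S
    · exact Finset.mem_union_left _ h
    · exact Finset.mem_union_right _ (Finset.mem_sdiff.2 ⟨hv, h⟩)

/-- **Rubin's conjecture for all `T` implies Popescu's conjecture.** -/
theorem popescu_of_rubin (D : RubinData F H G) (h : ∀ T, D.Allowed T → D.Rubin T) :
    Popescu D := by
  classical
  have hfin : {l : HeightOneSpectrum (𝓞 F) | ringChar (𝓞 F ⧸ l.asIdeal) ≤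
      Module.finrank ℚ F + 1}.Finite := finite_small F _
  obtain ⟨bad, hbaddef⟩ : ∃ bad : Finset (HeightOneSpectrum (𝓞 F)),
    bad = D.S ∪ hfin.toFinset := ⟨_, rfl⟩
  have hall : ∀ l, l ∉ bad → D.Allowed {l} := by
    intro l hl
    rw [hbaddef, Finset.mem_union, not_or, Set.Finite.mem_toFinset, Set.mem_ofPred_eq,
      not_le] at hl
    refine ⟨Finset.disjoint_singleton_right.2 hl.1, Or.inr ⟨l, ?_, hl.2⟩⟩
    exact Finset.mem_singleton_self l
  obtain ⟨t, ht, -, -⟩ := exists_sigma D 1 bad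
  have hS : D.Stark {t} := by
    obtain ⟨u, e, -, s⟩ := h {t} (hall t ht)
    exact ⟨u, e, s⟩
  obtain ⟨u₀, e₀, s₀⟩ := stark_all D hS ∅ (Finset.disjoint_empty_right _)
  refine popescu_of_pq D ⟨u₀, e₀, s₀, bad, fun l hl i f hf1 hf2 hf3 => ?_⟩
  refine intAt_of_rubin t_UNIQ' D (U_le D ∅) u₀ e₀ s₀ {l} (h {l} (hall l hl)) f hf1 fun j => ?_
  by_cases hj : j = i
  · rw [hj]
    exact hf3
  · intro x _
    exact hf2 j hj _

/-- a set with a prime ideal which splits completely has `0 < r` -/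
theorem pos_of_splits (D : RubinData F H G) {v : HeightOneSpectrum (𝓞 F)} (hv : v ∈ D.S)
    (hs : Spl H G v) : 0 < D.r := by
  obtain ⟨P, hP⟩ := (t_OVER F H v).1
  obtain ⟨i, -⟩ := D.all (Sum.inr P) ((above_iff hP).2 (Finset.mem_coe.2 hv)) (fun γ hγ =>
    dec_trivial hs.1 hs.2 hP γ hγ)
  exact i.pos

variable (F H G) in
/-- a small set of prime ideals which split completely -/
theorem exists_V1 : ∃ V₀ : Finset (HeightOneSpectrum (𝓞 F)), (∀ v ∈ V₀, Spl H G v) ∧
    2 ^ V₀.card ≤ 2 * Nat.card (ClassGroup (𝓞 H)) ∧ Good (F := F) H G V₀ ∧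
    (Nonempty (RubinData F H G) → V₀.Nonempty) := by
  classical
  obtain ⟨V₀, h1, h2, h3⟩ := exists_V0 F H G
  by_cases hne : Nonempty (RubinData F H G)
  · obtain ⟨D⟩ := hne
    by_cases hV : V₀.Nonempty
    · exact ⟨V₀, h1, h2.trans (by omega), h3, fun _ => hV⟩
    · obtain ⟨v, hv1, hv2, hv3⟩ := exists_sigma D 1 V₀
      rw [Finset.not_nonempty_iff_eq_empty] at hV
      refine ⟨{v}, fun u hu => ?_, ?_, ?_, fun _ => Finset.singleton_nonempty v⟩
      · rw [Finset.mem_singleton.1 hu]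
        exact (spl_iff D hv2).1 hv3
      · rw [Finset.card_singleton]
        have : 0 < Nat.card (ClassGroup (𝓞 H)) := Nat.card_pos
        omega
      · intro u hu P hP
        refine Subgroup.closure_mono (Set.image_mono ?_) (h3 u hu P hP)
        rintro Q ⟨u', hu', h⟩
        rw [hV] at hu'
        simp at hu'
  · exact ⟨V₀, h1, h2.trans (by omega), h3, fun h => absurd h hne⟩

end Pool.Agent.U360.PO
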