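import Pool.Agent.U360.PO.Down

/-!
# Popescu's conjecture: adding a prime ideal which does not split completely, and independence of
the choices in the data
-/

set_option autoImplicit false
set_option linter.unusedSectionVars false

open NumberField IsDedekindDomain Filter Topology

noncomputable section

namespace Pool.Agent.U360.PO

open Pool.Agent.K3h30.RS Pool.Agent.U360.RS Pool.Agent.U360.AS Pool.Agent.K3h8.RS
  Pool.Agent.K3h25.RS Pool.Agent.K3h62.RS Pool.Agent.K3h3.RS

attribute [local instance] instA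

variable {F H G : Type} [Field F] [NumberField F] [Field H] [NumberField H] [Algebra F H]
  [CommGroup G] [Finite G] [MulSemiringAction G H]

/-- restriction to a smaller set of primes -/
def resF (D D' : RubinData F H G) (h : D.S ⊆ D'.S)
    (f : Additive (US D') →+ MonoidAlgebra ℚ G) : Additive (US D) →+ MonoidAlgebra ℚ G :=
  f.comp (MonoidHom.toAdditive (Subgroup.inclusion (U_mono h ∅)))

theorem resF_isEquiv (D D' : RubinData F H G) (h : D.S ⊆ D'.S)
    (f : Additive (US D') →+ MonoidAlgebra ℚ G) (hf : IsEquiv D' f) :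
    IsEquiv D (resF D D' h f) := by
  intro γ x y hxy
  exact hf γ ⟨(x : Hˣ), U_mono h ∅ x.2⟩ ⟨(y : Hˣ), U_mono h ∅ y.2⟩ hxy

theorem resF_intOn (D D' : RubinData F H G) (h : D.S ⊆ D'.S) (t : HeightOneSpectrum (𝓞 F))
    (f : Additive (US D') →+ MonoidAlgebra ℚ G) (hf : IntOn D' {t} f) :
    IntOn D {t} (resF D D' h f) := by
  intro x hx
  exact hf ⟨(x : Hˣ), U_mono h ∅ x.2⟩ ⟨(U_mono h ∅ x.2).1, hx.2⟩

theorem single_mem (g : G) : (MonoidAlgebra.single g (1 : ℚ) : MonoidAlgebra ℚ G) ∈ ZG G :=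
  ⟨MonoidAlgebra.single g 1, by simp [toQ]⟩

variable [hG : IsGaloisGroup G F H] (D : RubinData F H G)

/-- the element for `S ∪ {v}`, where `v` does not split completely -/
theorem stark_addN (v : HeightOneSpectrum (𝓞 F)) (hv : v ∉ D.S) (hσ : D.σ v ≠ 1)
    (u : Wedge G D.r (D.U ∅)) (hE : D.InER u) (hS : D.IsStark ∅ u) :
    ∃ u' : Wedge G (addN D v hv hσ).r ((addN D v hv hσ).U ∅), (addN D v hv hσ).InER u' ∧
      (addN D v hv hσ).IsStark ∅ u' ∧
      ∀ f : Fin (addN D v hv hσ).r → Additive (US (addN D v hv hσ)) →+ MonoidAlgebra ℚ G,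
        wval (addN D v hv hσ) (U_le _ ∅) f u' = (1 - MonoidAlgebra.single (D.σ v)⁻¹ 1) *
          wval D (U_le D ∅) (fun j => resF D (addN D v hv hσ) (subset_cons' hv) (f j)) u := by
  have hle : D.U ∅ ≤ (addN D v hv hσ).U ∅ := U_mono (subset_cons' hv) _
  let u' : Wedge G (addN D v hv hσ).r ((addN D v hv hσ).U ∅) :=
    { n := u.n
      c := fun k => (1 - MonoidAlgebra.single (D.σ v)⁻¹ 1) * u.c k
      x := fun k i => ⟨(u.x k i : Hˣ), hle (u.x k i).2⟩ }
  refine ⟨u', ?_, ?_, ?_⟩
  · intro χ hχ k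
    change charValue χ (toR ((1 - MonoidAlgebra.single (D.σ v)⁻¹ 1) * u.c k)) = 0
    rw [charValue_toR_mul, charValue_one_sub]
    by_cases h1 : χ (D.σ v) = 1
    · rw [map_inv, h1, inv_one, Units.val_one, sub_self, zero_mul]
    · rw [hE χ ?_ k, mul_zero]
      intro hact
      apply hχ
      rcases hact with hact | ⟨h2, -⟩
      · left
        intro w hw hw'
        rcases inS_cons hv hw with h3 | ⟨P, hP, rfl⟩
        · exact hact w h3 hw'
        · exact ⟨D.σ v, fixes_of_frob (D.frob v hv) hP, h1⟩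
      · exact absurd (by rw [h2]; rfl) h1
  · intro χ
    have h1 := hS χ
    have hreg : u'.regulator (addN D v hv hσ).w =
        toR (1 - MonoidAlgebra.single (D.σ v)⁻¹ 1) * u.regulator D.w := by
      unfold Wedge.regulator
      rw [Finset.mul_sum]
      refine Finset.sum_congr rfl fun k _ => ?_
      change toR ((1 - MonoidAlgebra.single (D.σ v)⁻¹ 1) * u.c k) * _ = _
      rw [map_mul, ← mul_assoc]
      rfl
    rw [hreg, Pool.Agent.K3h62.RS.charValue_mul, charValue_one_sub]
    have hN : (Ideal.absNorm v.asIdeal : ℂ) ≠ 0 := by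
      have := two_le_absNorm v
      exact_mod_cast (show Ideal.absNorm v.asIdeal ≠ 0 by omega)
    have h2 : Tendsto (fun s : ℂ => 1 - ((χ⁻¹ (D.σ v) : ℂˣ) : ℂ) *
        (Ideal.absNorm v.asIdeal : ℂ) ^ (-s)) (𝓝[≠] 0)
        (𝓝 (1 - ((χ (D.σ v)⁻¹ : ℂˣ) : ℂ))) := by
      have hc : Continuous fun s : ℂ => 1 - ((χ⁻¹ (D.σ v) : ℂˣ) : ℂ) *
          (Ideal.absNorm v.asIdeal : ℂ) ^ (-s) :=
        continuous_const.sub (continuous_const.mul
          (Continuous.const_cpow continuous_neg (Or.inl hN)))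
      have h3 := (hc.tendsto 0).mono_left (nhdsWithin_le_nhds (s := {0}ᶜ))
      rw [neg_zero, Complex.cpow_zero, mul_one] at h3
      have h4 : χ⁻¹ (D.σ v) = χ (D.σ v)⁻¹ := by rw [MonoidHom.inv_apply, map_inv]
      rw [← h4]
      exact h3
    refine (h2.mul h1).congr fun s => ?_
    rw [LT_addN]
    change _ = (s ^ D.r)⁻¹ * _
    ring
  · intro f
    unfold wval
    rw [Finset.mul_sum]
    refine Finset.sum_congr rfl fun k _ => ?_
    rw [← mul_assoc]
    rfl

/-- integrality for `S ∪ {v}`, where `v` does not split completely -/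
theorem intP_addN (v : HeightOneSpectrum (𝓞 F)) (hv : v ∉ D.S) (hσ : D.σ v ≠ 1)
    (u : Wedge G D.r (D.U ∅)) (u' : Wedge G (addN D v hv hσ).r ((addN D v hv hσ).U ∅))
    (hu : ∀ f : Fin (addN D v hv hσ).r → Additive (US (addN D v hv hσ)) →+ MonoidAlgebra ℚ G,
        wval (addN D v hv hσ) (U_le _ ∅) f u' = (1 - MonoidAlgebra.single (D.σ v)⁻¹ 1) *
          wval D (U_le D ∅) (fun j => resF D (addN D v hv hσ) (subset_cons' hv) (f j)) u)
    (t : HeightOneSpectrum (𝓞 F)) (hI : IntP D (U_le D ∅) u t) :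
    IntP (addN D v hv hσ) (U_le _ ∅) u' t := by
  intro i f hf1 hf2 hf3
  have e2 : (addN D v hv hσ).delta {t} = D.delta {t} := rfl
  rw [hu, e2, mul_left_comm]
  refine (ZG G).mul_mem ((ZG G).sub_mem (ZG G).one_mem (single_mem _)) ?_
  exact hI i _ (fun j => resF_isEquiv _ _ _ _ (hf1 j)) (fun j hj a => hf2 j hj _)
    (resF_intOn _ _ _ t _ hf3)

/-- **Adding a prime ideal which does not split completely.** -/
theorem pq_addN (v : HeightOneSpectrum (𝓞 F)) (hv : v ∉ D.S) (hσ : D.σ v ≠ 1)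
    (h : PQ D) : PQ (addN D v hv hσ) := by
  obtain ⟨u, hE, hS, bad, hI⟩ := h
  obtain ⟨u', hE', hS', hu⟩ := stark_addN D v hv hσ u hE hS
  exact ⟨u', hE', hS', bad, fun t ht => intP_addN D v hv hσ u u' hu t (hI t ht)⟩

/-- the element for other data with the same set `S` -/
theorem stark_indep (D' : RubinData F H G) (hS : D.S = D'.S) (hsub : D.S ⊆ D'.S)
    (u : Wedge G D.r (D.U ∅)) (hE : D.InER u) (hSt : D.IsStark ∅ u) :
    ∃ (π : Fin D'.r ≃ Fin D.r) (γ : G) (u' : Wedge G D'.r (D'.U ∅)), D'.InER u' ∧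
      D'.IsStark ∅ u' ∧ ∀ f : Fin D'.r → Additive (US D') →+ MonoidAlgebra ℚ G,
        wval D' (U_le _ ∅) f u' = MonoidAlgebra.single γ⁻¹ 1 *
          wval D (U_le D ∅) (fun j => resF D D' hsub (f (π.symm j))) u := by
  classical
  obtain ⟨π, g, hg⟩ := exists_pi D D' hS
  have hle : D.U ∅ ≤ D'.U ∅ := U_mono hsub _
  obtain ⟨γ, hγ⟩ : ∃ γ : G, γ = ∏ a, g a := ⟨_, rfl⟩
  let u' : Wedge G D'.r (D'.U ∅) :=
    { n := u.n
      c := fun k => MonoidAlgebra.single γ⁻¹ 1 * u.c k
      x := fun k a => ⟨(u.x k (π a) : Hˣ), hle (u.x k (π a)).2⟩ }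
  refine ⟨π, γ, u', ?_, ?_, ?_⟩
  · intro χ hχ k
    change charValue χ (toR (MonoidAlgebra.single γ⁻¹ 1 * u.c k)) = 0
    rw [charValue_toR_mul, hE χ (fun h => hχ (active_indep D D' hS χ h)) k, mul_zero]
  · intro χ
    have h1 := hSt χ
    have hreg : u'.regulator D'.w = u.regulator D.w := by
      unfold Wedge.regulator
      refine Finset.sum_congr rfl fun k _ => ?_
      have e2 : Matrix.det (Matrix.of fun a b => reg G (D'.w a) (u.x k (π b) : Hˣ)) =
          MonoidAlgebra.single γ 1 *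
            Matrix.det (Matrix.of fun i j => reg G (D.w i) (u.x k j : Hˣ)) := by
        rw [← Matrix.det_submatrix_equiv_self π (Matrix.of fun i j => reg G (D.w i)
          (u.x k j : Hˣ))]
        have e3 : MonoidAlgebra.single γ (1 : ℝ) =
            ∏ a, (MonoidAlgebra.single (g a) (1 : ℝ) : MonoidAlgebra ℝ G) := by
          rw [hγ]
          have := map_prod (MonoidAlgebra.of ℝ G) g Finset.univ
          simpa only [MonoidAlgebra.of_apply] using this
        rw [e3, ← Matrix.det_mul_column]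
        congr 1
        ext a b : 1
        rw [Matrix.of_apply, Matrix.of_apply, Matrix.submatrix_apply, Matrix.of_apply]
        exact reg_conj (hg a) _
      change toR (MonoidAlgebra.single γ⁻¹ 1 * u.c k) *
        Matrix.det (Matrix.of fun a b => reg G (D'.w a) (u.x k (π b) : Hˣ)) = _
      rw [e2, map_mul, toR_single]
      have e4 : (MonoidAlgebra.single γ⁻¹ ((1 : ℚ) : ℝ) : MonoidAlgebra ℝ G) *
          MonoidAlgebra.single γ 1 = 1 := by
        rw [MonoidAlgebra.single_mul_single, inv_mul_cancel, Rat.cast_one, one_mul,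
          MonoidAlgebra.one_def]
      linear_combination (toR (u.c k) * Matrix.det (Matrix.of fun i j =>
        reg G (D.w i) (u.x k j : Hˣ))) * e4
    rw [hreg]
    have hr : D'.r = D.r := by simpa using Fintype.card_congr π
    refine h1.congr' ?_
    have h2 : ∀ᶠ s : ℂ in 𝓝[≠] 0, s ≠ 1 :=
      eventually_nhdsWithin_of_eventually_nhds (isOpen_ne.eventually_mem (by
        change (0 : ℂ) ≠ 1
        norm_num))
    filter_upwards [h2] with s hs
    rw [hr]
    congr 1
    unfold RubinData.LT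
    rw [L_indep D D' hS _ s hs, Finset.prod_empty, Finset.prod_empty]
  · intro f
    unfold wval
    rw [Finset.mul_sum]
    refine Finset.sum_congr rfl fun k _ => ?_
    rw [← mul_assoc]
    refine congrArg (fun z => MonoidAlgebra.single γ⁻¹ 1 * u.c k * z) ?_
    rw [← Matrix.det_submatrix_equiv_self π (Matrix.of fun i j =>
      resF D D' hsub (f (π.symm i)) (Additive.ofMul ⟨(u.x k j : Hˣ), U_le D ∅ (u.x k j).2⟩))]
    congr 1
    ext a b : 1
    rw [Matrix.submatrix_apply, Matrix.of_apply, Matrix.of_apply, Equiv.symm_apply_apply]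
    rfl

/-- integrality for other data with the same set `S` -/
theorem intP_indep (D' : RubinData F H G) (hS : D.S = D'.S) (hsub : D.S ⊆ D'.S)
    (u : Wedge G D.r (D.U ∅)) (π : Fin D'.r ≃ Fin D.r) (γ : G) (u' : Wedge G D'.r (D'.U ∅))
    (hu : ∀ f : Fin D'.r → Additive (US D') →+ MonoidAlgebra ℚ G,
        wval D' (U_le _ ∅) f u' = MonoidAlgebra.single γ⁻¹ 1 *
          wval D (U_le D ∅) (fun j => resF D D' hsub (f (π.symm j))) u)
    (t : HeightOneSpectrum (𝓞 F)) (htS : t ∉ D.S) (hI : IntP D (U_le D ∅) u t) :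
    IntP D' (U_le _ ∅) u' t := by
  intro i f hf1 hf2 hf3
  have e2 : D'.delta {t} = D.delta {t} := by
    unfold RubinData.delta
    rw [Finset.prod_singleton, Finset.prod_singleton, sigma_indep D D' hS htS]
  rw [hu, e2, mul_left_comm]
  refine (ZG G).mul_mem (single_mem _) ?_
  refine hI (π i) _ (fun j => resF_isEquiv _ _ _ _ (hf1 _)) (fun j hj a => hf2 _ ?_ _) ?_
  · intro h
    exact hj (by rw [← h, Equiv.apply_symm_apply])
  · have h3 : π.symm (π i) = i := Equiv.symm_apply_apply π i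
    change IntOn D {t} (resF D D' hsub (f (π.symm (π i))))
    rw [h3]
    exact resF_intOn _ _ _ t _ hf3

/-- **Independence of the choices in the data.** -/
theorem pq_indep (D' : RubinData F H G) (hS : D.S = D'.S) (h : PQ D) : PQ D' := by
  classical
  obtain ⟨u, hE, hSt, bad, hI⟩ := h
  have hsub : D.S ⊆ D'.S := by rw [hS]
  obtain ⟨π, γ, u', hE', hS', hu⟩ := stark_indep D D' hS hsub u hE hSt
  refine ⟨u', hE', hS', bad ∪ D.S, fun t ht => ?_⟩
  rw [Finset.mem_union, not_or] at ht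
  exact intP_indep D D' hS hsub u π γ u' hu t ht.2 (hI t ht.1)

end Pool.Agent.U360.PO
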