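import Pool.Agent.U360.PO.Alg
import Pool.Agent.U360.AS.Bl

/-!
# Tate's criterion: `H (ε ^ (1 / n)) / F` is abelian
-/

set_option autoImplicit false
set_option linter.unusedSectionVars false

open NumberField IsDedekindDomain Filter Topology

noncomputable section

namespace Pool.Agent.U360.PO

open Pool.Agent.K3h30.RS Pool.Agent.U360.RS Pool.Agent.U360.AS Pool.Agent.K3h8.RS
  Pool.Agent.K3h25.RS

attribute [local instance] instA

/-- `H (u ^ (1 / w)) / F` is an abelian extension: `u` is the `w`-th power of an element of a finite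
abelian extension of `F` which contains `H`. -/
def InAb (F : Type) {H : Type} [Field F] [NumberField F] [Field H] [NumberField H] [Algebra F H]
    (w : ℕ) (u : Hˣ) : Prop :=
  ∃ (L : Type) (_ : Field L) (_ : NumberField L) (_ : Algebra H L) (_ : Algebra F L)
    (_ : IsScalarTower F H L), IsGalois F L ∧ (∀ a b : L ≃ₐ[F] L, a * b = b * a) ∧
    ∃ y : L, y ^ w = algebraMap H L (u : H)

variable {F H G : Type} [Field F] [NumberField F] [Field H] [NumberField H] [Algebra F H]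
  [CommGroup G] [Finite G] [MulSemiringAction G H]

variable [hG : IsGaloisGroup G F H] (D : RubinData F H G)

theorem val_pow_one {L : Type} [Field L] [NumberField L] (P : HeightOneSpectrum (𝓞 L)) (x : L)
    (n : ℕ) (hn : 0 < n) (h : P.valuation L (x ^ n) = 1) : P.valuation L x = 1 := by
  rw [map_pow] at h
  exact (pow_eq_one_iff_of_nonneg zero_le hn.ne').1 h

theorem K1_of_frob {L : Type} [Field L] [NumberField L] (P : HeightOneSpectrum (𝓞 L))
    (φ : L →+* L) (q : ℕ)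
    (hφ : ∀ x : 𝓞 L, P.valuation L (φ (x : L) - (x : L) ^ q) < 1) (y z : Lˣ)
    (hy : P.valuation L (y : L) = 1) (hz : (z : L) * (y : L) ^ q = φ (y : L)) : z ∈ K1 P := by
  change P.valuation L ((z : L) - 1) < 1
  have h1 := frobU P φ q hφ (y : L) hy
  rw [← hz] at h1
  have h2 : (z : L) * (y : L) ^ q - (y : L) ^ q = ((z : L) - 1) * (y : L) ^ q := by ring
  rw [h2, map_mul, map_pow, hy, one_pow, mul_one] at h1
  exact h1

/-- the backward direction -/
theorem ab_backward (bad : Finset (HeightOneSpectrum (𝓞 F)))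
    (hbad : ∀ l, l ∉ bad → l ∉ D.S ∧ Module.finrank ℚ F + 1 < ringChar (𝓞 F ⧸ l.asIdeal))
    (n : ℕ) (hn : 0 < n) (htn : ∀ l, l ∉ bad → l.valuation F (n : F) = 1)
    (x : US D) (hc : ∀ t, t ∉ bad → ∃ c : Additive (US D), c ∈ BL D t ∧
      n • c = Additive.ofMul x - (Ideal.absNorm t.asIdeal) • ((D.σ t)⁻¹ • Additive.ofMul x)) :
    InAb F n (x : Hˣ) := by
  classical
  choose! c hcB hc using hc
  obtain ⟨u, hu⟩ : ∃ u : Additive (US D), u = Additive.ofMul x := ⟨_, rfl⟩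
  obtain ⟨M, i1, i2, i3, i4, i5, hgal, -, hroot⟩ := exists_field' F H n hn ({(x : Hˣ)} : Finset Hˣ)
  obtain ⟨y, hy⟩ := hroot (x : Hˣ) (Subgroup.subset_closure (by simp))
  -- commutation
  have hcomm : ∀ t t', t ∉ bad → t' ∉ bad →
      c t' - (Ideal.absNorm t.asIdeal) • ((D.σ t)⁻¹ • c t') =
        c t - (Ideal.absNorm t'.asIdeal) • ((D.σ t')⁻¹ • c t) := by
    intro t t' ht ht'
    have e1 : rho G (Additive (US D)) (dZ D t) (c t') =
        c t' - (Ideal.absNorm t.asIdeal) • ((D.σ t)⁻¹ • c t') := rho_delta _ _ _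
    have e2 : rho G (Additive (US D)) (dZ D t') (c t) =
        c t - (Ideal.absNorm t'.asIdeal) • ((D.σ t')⁻¹ • c t) := rho_delta _ _ _
    rw [← e1, ← e2]
    have h1 : n • (rho G (Additive (US D)) (dZ D t) (c t') -
        rho G (Additive (US D)) (dZ D t') (c t)) = 0 := by
      have f1 : n • c t' = rho G (Additive (US D)) (dZ D t') u := by
        rw [hc t' ht', ← hu]
        exact (rho_delta _ _ _).symm
      have f2 : n • c t = rho G (Additive (US D)) (dZ D t) u := by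
        rw [hc t ht, ← hu]
        exact (rho_delta _ _ _).symm
      rw [nsmul_sub, ← map_nsmul, ← map_nsmul, f1, f2, ← rho_mul, ← rho_mul, mul_comm, sub_self]
    have h2 : rho G (Additive (US D)) (dZ D t) (c t') -
        rho G (Additive (US D)) (dZ D t') (c t) ∈ BL D t := by
      refine (BL D t).sub_mem ?_ (rho_mem _ (fun γ v hv => bl_smul D t γ v hv) _ (hcB t ht))
      rw [e1]
      exact bl_delta D t (hbad t ht).1 _
    exact sub_eq_zero.1 (bl_tors D t (hbad t ht).1 (hbad t ht).2 _ h2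
      (isOfFinAddOrder_iff_nsmul_eq_zero.2 ⟨n, hn, h1⟩))
  -- the action on `y`
  obtain ⟨C, hC⟩ : ∃ C : HeightOneSpectrum (𝓞 F) → Hˣ,
    C = fun t => act (D.σ t) ((Additive.toMul (c t) : US D) : Hˣ) := ⟨_, rfl⟩
  obtain ⟨m, hm⟩ : ∃ m : Hˣ →* Mˣ, m = Units.map (algebraMap H M : H →* M) := ⟨_, rfl⟩
  have hmv : ∀ z : Hˣ, ((m z : Mˣ) : M) = algebraMap H M (z : H) := by
    intro z; rw [hm]; rfl
  rw [← hm] at hy
  have hCn : ∀ t, t ∉ bad → (C t) ^ n * (x : Hˣ) ^ (Ideal.absNorm t.asIdeal) =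
      act (D.σ t) (x : Hˣ) := by
    intro t ht
    have h1 : ((Additive.toMul (c t) : US D) : Hˣ) ^ n =
        (x : Hˣ) / (act (D.σ t)⁻¹ (x : Hˣ)) ^ (Ideal.absNorm t.asIdeal) :=
      congrArg (fun z : Additive (US D) => ((Additive.toMul z : US D) : Hˣ)) (hc t ht)
    rw [hC]
    dsimp only
    rw [← act_pow, h1, div_eq_mul_inv, act_map_mul]
    have h2 : act (D.σ t) ((act (D.σ t)⁻¹ (x : Hˣ)) ^ (Ideal.absNorm t.asIdeal))⁻¹ =
        ((x : Hˣ) ^ (Ideal.absNorm t.asIdeal))⁻¹ := by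
      have h3 : act (D.σ t) ((act (D.σ t)⁻¹ (x : Hˣ)) ^ (Ideal.absNorm t.asIdeal)) =
          (x : Hˣ) ^ (Ideal.absNorm t.asIdeal) := by
        rw [act_pow, ← act_mul, mul_inv_cancel, act_one]
      rw [eq_inv_iff_mul_eq_one, ← h3, ← act_map_mul, inv_mul_cancel, act_map_one]
    rw [h2, mul_assoc, inv_mul_cancel, mul_one]
  have key : ∀ Φ : M ≃ₐ[F] M, ∃ t, t ∉ bad ∧
      (∀ z : Hˣ, Φ ((m z : Mˣ) : M) = ((m (act (D.σ t) z) : Mˣ) : M)) ∧
      Φ (y : M) = ((m (C t) : Mˣ) : M) * (y : M) ^ (Ideal.absNorm t.asIdeal) := by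
    intro Φ
    obtain ⟨t, ht, hΦ⟩ := exists_prime F M Φ bad
    obtain ⟨P, w, hPw, hwt, hPt, hΦP, hres⟩ := frob_data D Φ t (hbad t ht).1 hΦ
    have hres' : ∀ z : Hˣ, Φ ((m z : Mˣ) : M) = ((m (act (D.σ t) z) : Mˣ) : M) := by
      intro z
      rw [hmv, hmv, hres, act_val]
    refine ⟨t, ht, hres', ?_⟩
    obtain ⟨Y, hY⟩ : ∃ Y : Mˣ, Y = Units.map ((Φ : M →+* M) : M →* M) y := ⟨_, rfl⟩
    have hYv : (Y : M) = Φ (y : M) := by rw [hY]; rfl
    obtain ⟨ξ, hξ⟩ : ∃ ξ : Mˣ, ξ = Y * (m (C t) * y ^ (Ideal.absNorm t.asIdeal))⁻¹ := ⟨_, rfl⟩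
    have hYn : Y ^ n = m (act (D.σ t) (x : Hˣ)) := by
      apply Units.ext
      rw [← hres', Units.val_pow_eq_pow_val, hYv, ← map_pow, ← Units.val_pow_eq_pow_val, hy]
    have hξn : ξ ^ n = 1 := by
      rw [hξ, mul_pow, hYn, inv_pow, mul_pow, ← pow_mul, mul_comm _ n, pow_mul, hy, ← map_pow,
        ← map_pow, ← map_mul, hCn t ht, mul_inv_cancel]
    have hPn : P.valuation M (n : M) = 1 := by
      have h1 := val_eq t P hPt ((n : ℕ) : F) (htn t ht)
      rwa [map_natCast] at h1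
    have hwP : Above {t} w := above_singleton.2 hwt
    have hxw : w.valuation H ((x : Hˣ) : H) = 1 := unit_at D t (hbad t ht).1 x.2 w hwP
    have hyP : P.valuation M (y : M) = 1 := by
      apply val_pow_one P _ n hn
      rw [← Units.val_pow_eq_pow_val, hy, hmv]
      exact val_eq w P hPw _ hxw
    have h1 : Y * (y ^ (Ideal.absNorm t.asIdeal))⁻¹ ∈ K1 P := by
      refine K1_of_frob P (Φ : M →+* M) (Ideal.absNorm t.asIdeal) hΦP y _ hyP ?_
      rw [← Units.val_pow_eq_pow_val, ← Units.val_mul, inv_mul_cancel_right, hYv]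
      rfl
    have h2 : m (C t) ∈ K1 P := by
      have h3 : C t ∈ D.U {t} := by
        rw [hC]
        exact bl_smul D t (D.σ t) _ (hcB t ht)
      have h4 : w.valuation H ((C t : H) - 1) < 1 := h3.2 w (by
        rw [Finset.coe_singleton]; exact hwP)
      change P.valuation M (((m (C t) : Mˣ) : M) - 1) < 1
      rw [hmv, ← map_one (algebraMap H M), ← map_sub]
      exact val_lt w P hPw _ h4
    have h3 : ξ = 1 := by
      refine root_eq_one P n hPn ξ hξn ?_
      have h4 : ξ = (Y * (y ^ (Ideal.absNorm t.asIdeal))⁻¹) * (m (C t))⁻¹ := by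
        rw [hξ, mul_inv_rev]
        rw [mul_assoc]
      rw [h4]
      exact (K1 P).mul_mem h1 ((K1 P).inv_mem h2)
    have h4 : Y = m (C t) * y ^ (Ideal.absNorm t.asIdeal) := by
      rw [hξ, mul_inv_eq_one] at h3
      exact h3
    rw [← hYv, h4, Units.val_mul, Units.val_pow_eq_pow_val]
  -- automorphisms commute on `y` and on `H`
  have hCcomm : ∀ t t', t ∉ bad → t' ∉ bad →
      act (D.σ t) (C t') * (C t) ^ (Ideal.absNorm t'.asIdeal) =
        act (D.σ t') (C t) * (C t') ^ (Ideal.absNorm t.asIdeal) := by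
    intro t t' ht ht'
    obtain ⟨a, ha⟩ : ∃ a : Hˣ, a = ((Additive.toMul (c t) : US D) : Hˣ) := ⟨_, rfl⟩
    obtain ⟨a', ha'⟩ : ∃ a' : Hˣ, a' = ((Additive.toMul (c t') : US D) : Hˣ) := ⟨_, rfl⟩
    have h1 : a' / (act (D.σ t)⁻¹ a') ^ (Ideal.absNorm t.asIdeal) =
        a / (act (D.σ t')⁻¹ a) ^ (Ideal.absNorm t'.asIdeal) := by
      rw [ha, ha']
      exact congrArg (fun z : Additive (US D) => ((Additive.toMul z : US D) : Hˣ))
        (hcomm t t' ht ht')
    have h2 : a' * (act (D.σ t')⁻¹ a) ^ (Ideal.absNorm t'.asIdeal) =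
        a * (act (D.σ t)⁻¹ a') ^ (Ideal.absNorm t.asIdeal) := by
      rw [div_eq_div_iff_mul_eq_mul] at h1
      exact h1
    have h3 := congrArg (fun z => act (D.σ t * D.σ t') z) h2
    simp only [act_map_mul, act_pow, ← act_mul] at h3
    rw [mul_assoc (D.σ t), mul_inv_cancel, mul_one, mul_comm (D.σ t) (D.σ t'),
      mul_assoc (D.σ t'), mul_inv_cancel, mul_one] at h3
    have e1 : C t = act (D.σ t) a := by rw [hC, ha]
    have e2 : C t' = act (D.σ t') a' := by rw [hC, ha']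
    rw [e1, e2, ← act_mul, ← act_mul, mul_comm (D.σ t) (D.σ t')]
    exact h3
  have hyc : ∀ Φ Ψ : M ≃ₐ[F] M, Φ (Ψ (y : M)) = Ψ (Φ (y : M)) := by
    intro Φ Ψ
    obtain ⟨t, ht, h1, h2⟩ := key Φ
    obtain ⟨t', ht', h1', h2'⟩ := key Ψ
    rw [h2', h2, map_mul, map_mul, map_pow, map_pow, h1, h1', h2, h2', mul_pow, mul_pow]
    have h3 := congrArg (fun z => ((m z : Mˣ) : M)) (hCcomm t t' ht ht')
    simp only [map_mul, map_pow, Units.val_mul, Units.val_pow_eq_pow_val] at h3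
    rw [← pow_mul, ← pow_mul, mul_comm (Ideal.absNorm t.asIdeal)]
    linear_combination (y : M) ^ (Ideal.absNorm t'.asIdeal * Ideal.absNorm t.asIdeal) * h3
  have hHc : ∀ (Φ Ψ : M ≃ₐ[F] M) (z : H), Φ (Ψ (algebraMap H M z)) =
      Ψ (Φ (algebraMap H M z)) := by
    intro Φ Ψ z
    by_cases hz : z = 0
    · rw [hz]
      simp
    · obtain ⟨t, ht, h1, -⟩ := key Φ
      obtain ⟨t', ht', h1', -⟩ := key Ψ
      have h2 : algebraMap H M z = ((m (Units.mk0 z hz) : Mˣ) : M) := by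
        rw [hmv]; rfl
      rw [h2, h1, h1', h1, h1', ← act_mul, ← act_mul, mul_comm]
  -- the field
  have hfix : ∀ z : M, (∀ Φ Ψ : M ≃ₐ[F] M, Φ (Ψ z) = Ψ (Φ z)) →
      z ∈ IntermediateField.fixedField (commutator (M ≃ₐ[F] M)) := by
    intro z hz
    have h1 : commutator (M ≃ₐ[F] M) ≤ MulAction.stabilizer (M ≃ₐ[F] M) z := by
      rw [commutator_def, Subgroup.commutator_le]
      intro a _ b _
      rw [MulAction.mem_stabilizer_iff]
      change (a * b * a⁻¹ * b⁻¹) z = z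
      have h2 : (a⁻¹ * b⁻¹) z = (b⁻¹ * a⁻¹) z := hz a⁻¹ b⁻¹
      have h3 : (a * b * a⁻¹ * b⁻¹) z = (a * b) ((a⁻¹ * b⁻¹) z) := by
        rw [mul_assoc]
        rfl
      rw [h3, h2]
      have h4 : (a * b) ((b⁻¹ * a⁻¹) z) = (a * b * (b⁻¹ * a⁻¹)) z := rfl
      rw [h4, mul_assoc, mul_inv_cancel_left, mul_inv_cancel]
      rfl
    rw [IntermediateField.mem_fixedField_iff]
    intro g hg
    exact h1 hg
  obtain ⟨E, hE⟩ : ∃ E : IntermediateField F M,
    E = IntermediateField.fixedField (commutator (M ≃ₐ[F] M)) := ⟨_, rfl⟩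
  have hgalE : IsGalois F E := by
    rw [hE]
    exact IsGalois.of_fixedField_normal_subgroup _
  have habE : ∀ a b : E ≃ₐ[F] E, a * b = b * a := by
    rw [hE]
    intro a b
    let e := IsGalois.normalAutEquivQuotient (commutator (M ≃ₐ[F] M))
    have h1 : e.symm a * e.symm b = e.symm b * e.symm a :=
      mul_comm (G := Abelianization (M ≃ₐ[F] M)) _ _
    apply e.symm.injective
    rw [map_mul, map_mul, h1]
  have hNF : NumberField E := inferInstance
  let f : H →+* E := (algebraMap H M).codRestrict E fun z => by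
    rw [hE]
    exact hfix _ fun Φ Ψ => hHc Φ Ψ z
  letI : Algebra H E := f.toAlgebra
  refine ⟨E, inferInstance, hNF, inferInstance, inferInstance, ?_, hgalE, habE, ⟨⟨(y : M), ?_⟩, ?_⟩⟩
  · exact IsScalarTower.of_algebraMap_eq fun z => Subtype.ext
      (IsScalarTower.algebraMap_apply F H M z)
  · rw [hE]
    exact hfix _ hyc
  · apply Subtype.ext
    change (y : M) ^ n = algebraMap H M ((x : Hˣ) : H)
    rw [← Units.val_pow_eq_pow_val, hy, hmv]

end Pool.Agent.U360.PO
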