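import Pool.Agent.U360.PO.Kum

/-!
# Tate's criterion: the other direction
-/

set_option autoImplicit false
set_option linter.unusedSectionVars false

open NumberField IsDedekindDomain Filter Topology

noncomputable section

namespace Pool.Agent.U360.PO

open Pool.Agent.K3h30.RS Pool.Agent.U360.RS Pool.Agent.U360.AS Pool.Agent.K3h8.RS
  Pool.Agent.K3h25.RS

attribute [local instance] instA

variable {F H G : Type} [Field F] [NumberField F] [Field H] [NumberField H] [Algebra F H]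
  [CommGroup G] [Finite G] [MulSemiringAction G H]

theorem comap_tower {L : Type} [Field L] [NumberField L] [Algebra H L] [Algebra F L]
    [IsScalarTower F H L] (P : HeightOneSpectrum (𝓞 L)) (w : HeightOneSpectrum (𝓞 H))
    (v : HeightOneSpectrum (𝓞 F))
    (h1 : P.asIdeal.comap (algebraMap (𝓞 H) (𝓞 L)) = w.asIdeal)
    (h2 : w.asIdeal.comap (algebraMap (𝓞 F) (𝓞 H)) = v.asIdeal) :
    P.asIdeal.comap (algebraMap (𝓞 F) (𝓞 L)) = v.asIdeal := by
  have h3 : algebraMap (𝓞 F) (𝓞 L) =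
      (algebraMap (𝓞 H) (𝓞 L)).comp (algebraMap (𝓞 F) (𝓞 H)) := by
    ext x
    exact IsScalarTower.algebraMap_apply F H L (x : F)
  rw [h3, ← Ideal.comap_comap, h1, h2]

/-- in an abelian extension a Frobenius automorphism is one at all prime ideals -/
theorem frob_all {L : Type} [Field L] [NumberField L] [Algebra F L] [IsGalois F L]
    (hab : ∀ a b : L ≃ₐ[F] L, a * b = b * a) (Φ : L ≃ₐ[F] L) (v : HeightOneSpectrum (𝓞 F))
    (P P' : HeightOneSpectrum (𝓞 L)) (hP : Above {v} P) (hP' : Above {v} P')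
    (hΦ : ∀ x : 𝓞 L, P.valuation L (Φ (x : L) - (x : L) ^ (Ideal.absNorm v.asIdeal)) < 1)
    (x : 𝓞 L) : P'.valuation L (Φ (x : L) - (x : L) ^ (Ideal.absNorm v.asIdeal)) < 1 := by
  let _ : CommGroup (L ≃ₐ[F] L) :=
    { (inferInstance : Group (L ≃ₐ[F] L)) with mul_comm := hab }
  have hfin : Finite (L ≃ₐ[F] L) := inferInstance
  obtain ⟨g, hg⟩ := (t_TRANS F L (L ≃ₐ[F] L) v P hP).2 P' hP'
  rw [hg]
  have hint : IsIntegral ℤ (g (x : L)) := (x.2 : IsIntegral ℤ (x : L)).map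
    ((g : L →ₐ[F] L).restrictScalars ℤ)
  have h1 := hΦ ⟨g (x : L), hint⟩
  have h2 : g • (Φ (x : L) - (x : L) ^ (Ideal.absNorm v.asIdeal)) =
      Φ (g (x : L)) - (g (x : L)) ^ (Ideal.absNorm v.asIdeal) := by
    change g (Φ (x : L) - (x : L) ^ (Ideal.absNorm v.asIdeal)) = _
    rw [map_sub, map_pow]
    congr 1
    exact AlgEquiv.congr_fun (hab g Φ) (x : L)
  rw [h2]
  exact h1

variable [hG : IsGaloisGroup G F H] (D : RubinData F H G)

/-- the forward direction -/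
theorem ab_forward (n : ℕ) (hn : 0 < n) (τ : Hˣ) (hτ : orderOf τ = n) (x : US D)
    (h : InAb F n (x : Hˣ)) (t : HeightOneSpectrum (𝓞 F)) (ht : t ∉ D.S)
    (htn : t.valuation F (n : F) = 1) : ∃ c : Additive (US D), c ∈ BL D t ∧
      n • c = Additive.ofMul x -
        (Ideal.absNorm t.asIdeal) • ((D.σ t)⁻¹ • Additive.ofMul x) := by
  classical
  obtain ⟨L, i1, i2, i3, i4, i5, hgal, hab, y0, hy0⟩ := h
  have hy00 : y0 ≠ 0 := by
    rintro rfl
    rw [zero_pow hn.ne'] at hy0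
    exact (x : Hˣ).ne_zero ((map_eq_zero (algebraMap H L)).1 hy0.symm)
  obtain ⟨y, hyy⟩ : ∃ y : Lˣ, y = Units.mk0 y0 hy00 := ⟨_, rfl⟩
  obtain ⟨m, hm⟩ : ∃ m : Hˣ →* Lˣ, m = Units.map (algebraMap H L : H →* L) := ⟨_, rfl⟩
  have hmv : ∀ z : Hˣ, ((m z : Lˣ) : L) = algebraMap H L (z : H) := by
    intro z; rw [hm]; rfl
  have hminj : Function.Injective m := by
    rw [hm]
    exact Units.map_injective (algebraMap H L).injective
  have hy : y ^ n = m (x : Hˣ) := by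
    apply Units.ext
    rw [Units.val_pow_eq_pow_val, hmv, hyy]
    exact hy0
  obtain ⟨Φ, hΦ⟩ := exists_hasFrob F L t
  obtain ⟨P, w, hPw, hwt, hPt, hΦP, hres⟩ := frob_data D Φ t ht hΦ
  obtain ⟨q, hq⟩ : ∃ q : ℕ, q = Ideal.absNorm t.asIdeal := ⟨_, rfl⟩
  rw [← hq] at hΦP
  have hPn : P.valuation L (n : L) = 1 := by
    have h1 := val_eq t P hPt ((n : ℕ) : F) htn
    rwa [map_natCast] at h1
  have hres' : ∀ z : Hˣ, Φ ((m z : Lˣ) : L) = ((m (act (D.σ t) z) : Lˣ) : L) := by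
    intro z
    rw [hmv, hmv, hres, act_val]
  obtain ⟨Y, hY⟩ : ∃ Y : Lˣ, Y = Units.map ((Φ : L →+* L) : L →* L) y := ⟨_, rfl⟩
  have hYv : (Y : L) = Φ (y : L) := by rw [hY]; rfl
  obtain ⟨z, hz⟩ : ∃ z : Lˣ, z = Y * (y ^ q)⁻¹ := ⟨_, rfl⟩
  have hzy : (z : L) * (y : L) ^ q = Φ (y : L) := by
    rw [← Units.val_pow_eq_pow_val, ← Units.val_mul, hz, inv_mul_cancel_right, hYv]
  -- `z` is in `H`
  have hgalHL : IsGalois H L := IsGalois.tower_top_of_isGalois F H L
  have hprim : IsPrimitiveRoot ((m τ : Lˣ) : L) n := by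
    rw [IsPrimitiveRoot.coe_units_iff]
    have h1 : orderOf (m τ) = n := by
      rw [orderOf_injective m hminj, hτ]
    rw [← h1]
    exact IsPrimitiveRoot.orderOf _
  have hzH : (z : L) ∈ Set.range (algebraMap H L) := by
    rw [IsGalois.mem_range_algebraMap_iff_fixed]
    intro f
    obtain ⟨Z, hZ⟩ : ∃ Z : Lˣ, Z = Units.map ((f : L →+* L) : L →* L) y * y⁻¹ := ⟨_, rfl⟩
    have hZy : (Z : L) * (y : L) = f (y : L) := by
      rw [← Units.val_mul, hZ, inv_mul_cancel_right]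
      rfl
    have hZn : Z ^ n = 1 := by
      rw [hZ, mul_pow, inv_pow, hy, ← map_pow, hy, mul_inv_eq_one]
      apply Units.ext
      change f ((m (x : Hˣ) : Lˣ) : L) = _
      rw [hmv, f.commutes]
    have hfz : f (Φ (y : L)) = Φ (f (y : L)) :=
      AlgEquiv.congr_fun (hab (f.restrictScalars F) Φ) (y : L)
    have hΦZ : Φ (Z : L) = (Z : L) ^ q := by
      have h1 := frob_root P Φ q n hn hΦP hPn Z hZn
      have h2 := congrArg Units.val h1
      rw [Units.val_pow_eq_pow_val] at h2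
      exact h2
    have h1 : f (z : L) * (f (y : L)) ^ q = f (Φ (y : L)) := by
      rw [← hzy, map_mul, map_pow]
    rw [hfz, ← hZy, map_mul, hΦZ, ← hzy, mul_pow] at h1
    have h2 : (Z : L) ^ q * (y : L) ^ q ≠ 0 := mul_ne_zero (pow_ne_zero _ Z.ne_zero)
      (pow_ne_zero _ y.ne_zero)
    apply mul_right_cancel₀ h2
    rw [h1]
    ring
  obtain ⟨z0, hz0⟩ := hzH
  have hz00 : z0 ≠ 0 := by
    rintro rfl
    rw [map_zero] at hz0
    exact z.ne_zero hz0.symm
  obtain ⟨ζ, hζ⟩ : ∃ ζ : Hˣ, ζ = Units.mk0 z0 hz00 := ⟨_, rfl⟩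
  have hmζ : m ζ = z := by
    apply Units.ext
    rw [hmv, hζ]
    exact hz0
  have hζn : ζ ^ n = act (D.σ t) (x : Hˣ) * ((x : Hˣ) ^ q)⁻¹ := by
    apply hminj
    rw [map_pow, hmζ, map_mul, map_inv, map_pow, ← hy, hz, mul_pow, inv_pow, ← pow_mul,
      ← pow_mul, mul_comm q n]
    congr 1
    apply Units.ext
    rw [← hres', Units.val_pow_eq_pow_val, hYv, ← map_pow, ← Units.val_pow_eq_pow_val, hy]
  have hσx : act (D.σ t) (x : Hˣ) ∈ US D := act_mem (F := F) t_TRANS _ _ _ x.2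
  have hζU : ∀ u : HeightOneSpectrum (𝓞 H), ¬ Above (D.S : Set (HeightOneSpectrum (𝓞 F))) u →
      u.valuation H (ζ : H) = 1 := by
    intro u hu
    apply val_pow_one u _ n hn
    rw [← Units.val_pow_eq_pow_val, hζn]
    exact ((US D).mul_mem hσx ((US D).inv_mem ((US D).pow_mem x.2 q))).1 u hu
  have hζt : ∀ u : HeightOneSpectrum (𝓞 H), Above {t} u → u.valuation H ((ζ : H) - 1) < 1 := by
    intro u hu
    obtain ⟨P', hP'⟩ := (t_OVER H L u).1
    have hP'u := above_singleton.1 hP'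
    have hP't := comap_tower P' u t hP'u (above_singleton.1 hu)
    have hΦP' : ∀ a : 𝓞 L, P'.valuation L (Φ (a : L) - (a : L) ^ q) < 1 := by
      intro a
      rw [hq]
      rw [hq] at hΦP
      exact frob_all hab Φ t P P' (above_singleton.2 hPt) (above_singleton.2 hP't) hΦP a
    have hyP' : P'.valuation L (y : L) = 1 := by
      apply val_pow_one P' _ n hn
      rw [← Units.val_pow_eq_pow_val, hy, hmv]
      exact val_eq u P' hP'u _ (unit_at D t ht x.2 u hu)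
    have h1 := K1_of_frob P' (Φ : L →+* L) q hΦP' y z hyP' hzy
    change P'.valuation L ((z : L) - 1) < 1 at h1
    rw [← val_lt_iff u P' hP'u, map_sub, map_one, ← hmv, hmζ]
    exact h1
  have hζm : ζ ∈ D.U {t} := by
    refine ⟨hζU, fun u hu => ?_⟩
    rw [Finset.coe_singleton] at hu
    exact hζt u hu
  have hcm : act (D.σ t)⁻¹ ζ ∈ D.U {t} := act_mem (F := F) t_TRANS
    (D.S : Set (HeightOneSpectrum (𝓞 F)))
    (({t} : Finset (HeightOneSpectrum (𝓞 F))) : Set (HeightOneSpectrum (𝓞 F))) _ hζm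
  refine ⟨Additive.ofMul ⟨act (D.σ t)⁻¹ ζ, U_le D {t} hcm⟩, hcm, ?_⟩
  apply Additive.toMul.injective
  apply Subtype.ext
  change (act (D.σ t)⁻¹ ζ) ^ n = (x : Hˣ) / (act (D.σ t)⁻¹ (x : Hˣ)) ^ Ideal.absNorm t.asIdeal
  rw [← act_pow, hζn, act_map_mul, ← act_mul, inv_mul_cancel, act_one, ← hq, div_eq_mul_inv]
  congr 1
  rw [eq_inv_iff_mul_eq_one, ← act_pow, ← act_map_mul, inv_mul_cancel, act_map_one]

end Pool.Agent.U360.PO
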