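import Pool.Agent.U360.PO.Eq2

/-!
# Popescu's conjecture: adding and removing a prime ideal which splits completely
-/

set_option autoImplicit false
set_option linter.unusedSectionVars false

open NumberField IsDedekindDomain Filter Topology

noncomputable section

namespace Pool.Agent.U360.PO

open Pool.Agent.K3h30.RS Pool.Agent.U360.RS Pool.Agent.U360.AS Pool.Agent.K3h8.RS
  Pool.Agent.K3h25.RS

attribute [local instance] instA

variable {F H G : Type} [Field F] [NumberField F] [Field H] [NumberField H] [Algebra F H]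
  [CommGroup G] [Finite G] [MulSemiringAction G H]

variable [hG : IsGaloisGroup G F H] (D : RubinData F H G) (v : HeightOneSpectrum (𝓞 F))
  (hv : v ∉ D.S) (hσ : D.σ v = 1) (P : HeightOneSpectrum (𝓞 H)) (hP : Above {v} P)

/-- integrality for `S ∪ {v}` -/
theorem intP_addS (hr : 0 < D.r) (ε : Hˣ) (hε : ε ∈ US (addS D v hv hσ P hP))
    (u : Wedge G D.r (D.U ∅)) (bad₀ : Finset (HeightOneSpectrum (𝓞 F)))
    (hI : ∀ t, t ∉ bad₀ → IntP D (U_le D ∅) u t) :
    ∃ bad : Finset (HeightOneSpectrum (𝓞 F)), ∀ t, t ∉ bad →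
      IntP (addS D v hv hσ P hP) (U_le _ ∅) (wedgeUp D v hv hσ P hP 1 ε hε u) t := by
  classical
  have hfin : {l : HeightOneSpectrum (𝓞 F) | ringChar (𝓞 F ⧸ l.asIdeal) ≤
      Module.finrank ℚ F + 1}.Finite := finite_small F _
  obtain ⟨bad, hbd⟩ : ∃ bad : Finset (HeightOneSpectrum (𝓞 F)),
    bad = bad₀ ∪ D.S ∪ hfin.toFinset := ⟨_, rfl⟩
  have hmem : ∀ l, l ∉ bad → l ∉ bad₀ ∧ l ∉ D.S ∧
      Module.finrank ℚ F + 1 < ringChar (𝓞 F ⧸ l.asIdeal) := by
    intro l hl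
    rw [hbd] at hl
    simp only [Finset.mem_union, not_or, Set.Finite.mem_toFinset, Set.mem_ofPred_eq,
      not_le] at hl
    exact ⟨hl.1.1, hl.1.2, hl.2⟩
  have hbad : ∀ l, l ∉ bad → l ∉ D.S ∧
      Module.finrank ℚ F + 1 < ringChar (𝓞 F ⧸ l.asIdeal) := fun l hl => (hmem l hl).2
  obtain ⟨n, hn, hnI, ⟨τ, hτ⟩, hk⟩ := exists_root D bad
  have hfinN : {w : HeightOneSpectrum (𝓞 F) | w.valuation F ((n : ℕ) : F) < 1}.Finite :=
    Pool.Agent.K3h43.RS.finite_lt (H := F) ((n : ℕ) : F) (Nat.cast_ne_zero.2 hn.ne')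
  refine ⟨bad ∪ {v} ∪ hfinN.toFinset, fun t ht i f hf1 hf2 hf3 => ?_⟩
  simp only [Finset.mem_union, not_or, Finset.mem_singleton, Set.Finite.mem_toFinset,
    Set.mem_ofPred_eq, not_lt] at ht
  obtain ⟨⟨htb, htv⟩, htn⟩ := ht
  have htS : t ∉ D.S := (hbad t htb).1
  have htn0 : t.valuation F ((n : ℕ) : F) = 1 := by
    refine le_antisymm ?_ htn
    have e : (((n : ℕ) : 𝓞 F) : F) = ((n : ℕ) : F) := map_natCast (algebraMap (𝓞 F) F) n
    rw [← e]
    exact t.valuation_le_one (K := F) ((n : ℕ) : 𝓞 F)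
  have htn' : ∀ w : HeightOneSpectrum (𝓞 H), Above {t} w → w.valuation H (n : H) = 1 := by
    intro w hw
    have h1 := val_eq t w (above_singleton.1 hw) ((n : ℕ) : F) htn0
    rwa [map_natCast] at h1
  have ht' : t ∉ (addS D v hv hσ P hP).S := by
    intro h
    rcases (Finset.mem_cons (h := hv)).1 h with h | h
    · exact htv h
    · exact htS h
  obtain ⟨χ, m, hm0, hm, hfr, hker, -⟩ := exists_char (G := G) Pool.Agent.K3h44.RS.t_DLOG
    Pool.Agent.K3h44.RS.t_FROBU t_TRANS t_OVER (addS D v hv hσ P hP).S t ht' (D.σ t)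
    (D.frob t htS)
  obtain ⟨e, he⟩ := exists_isLift (G := G) χ
  obtain ⟨b, hb⟩ : ∃ b : MonoidAlgebra ℤ G, ∀ u, f i u - toQ b * e u ∈ ZG G := by
    refine exists_comb χ e he m hm0 hm (f i) (isEq_of_isEquiv _ (hf1 i)) ?_
    intro a ha
    obtain ⟨x, rfl⟩ : ∃ x, Additive.ofMul x = a := ⟨Additive.toMul a, rfl⟩
    refine hf3 x ⟨x.2.1, fun w hw => ?_⟩
    rw [Finset.coe_singleton] at hw
    exact (hker x).1 ha w hw
  obtain ⟨ε', hε'⟩ : ∃ ε' : Additive (US (addS D v hv hσ P hP)), ε' = Additive.ofMul ⟨ε, hε⟩ :=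
    ⟨_, rfl⟩
  have hdel : (addS D v hv hσ P hP).delta {t} =
      1 - MonoidAlgebra.single (D.σ t)⁻¹ (Ideal.absNorm t.asIdeal : ℚ) := by
    unfold RubinData.delta
    rw [Finset.prod_singleton]
    rfl
  have hdelD : ∀ l, D.delta {l} =
      1 - MonoidAlgebra.single (D.σ l)⁻¹ (Ideal.absNorm l.asIdeal : ℚ) := by
    intro l
    unfold RubinData.delta
    rw [Finset.prod_singleton]
  rw [hdel]
  refine Eq.subst (motive := fun z => (1 - MonoidAlgebra.single (D.σ t)⁻¹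
    (Ideal.absNorm t.asIdeal : ℚ)) * z ∈ (toQ (G := G)).range)
    (wval_wedgeUp D v hv hσ P hP 1 ε hε u f).symm ?_
  rw [← hε', Y_col, Finset.mul_sum]
  -- the minors
  have hres : ∀ j, IsEquiv D ((f j).comp (inc D v hv hσ P hP)) := by
    intro j
    refine isEquiv_of_isEq D fun γ a => ?_
    exact isEq_of_isEquiv _ (hf1 j) γ (inc D v hv hσ P hP a)
  have hresi : IntOn D {t} ((f i).comp (inc D v hv hσ P hP)) := by
    intro x hx
    exact hf3 ⟨(x : Hˣ), US_le_addS D v hv hσ P hP x.2⟩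
      ⟨(US_le_addS D v hv hσ P hP x.2).1, hx.2⟩
  have hminor : ∀ (l : HeightOneSpectrum (𝓞 F)) (g : Fin D.r → Fin (D.r + 1)) (i' : Fin D.r),
      l ∉ bad → (∀ j, j ≠ i' → g j ≠ i) →
      IntOn D {l} ((f (g i')).comp (inc D v hv hσ P hP)) →
      (1 - MonoidAlgebra.single (D.σ l)⁻¹ (Ideal.absNorm l.asIdeal : ℚ)) *
        ∑ k, (MonoidAlgebra.single 1 (-(((1 : ℕ) : ℚ)⁻¹)) * u.c k) *
          Matrix.det (Matrix.of fun a j => (f (g a)).comp (inc D v hv hσ P hP)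
            (Additive.ofMul ⟨(u.x k j : Hˣ), U_le D ∅ (u.x k j).2⟩)) ∈ ZG G := by
    intro l g i' hl hg hg'
    apply neg_sum_mem
    rw [← hdelD]
    exact hI l (hmem l hl).1 i' (fun a => (f (g a)).comp (inc D v hv hσ P hP))
      (fun j => hres _) (fun j hj a => hf2 _ (hg j hj) _) hg'
  refine (ZG G).sum_mem fun l _ => ?_
  by_cases hl : l = i
  · subst hl
    obtain ⟨M, hM⟩ : ∃ M : MonoidAlgebra ℚ G,
      M = ∑ k, (MonoidAlgebra.single 1 (-(((1 : ℕ) : ℚ)⁻¹)) * u.c k) *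
        Matrix.det (Matrix.of fun a j => (f (Fin.succAbove l a)).comp (inc D v hv hσ P hP)
          (Additive.ofMul ⟨(u.x k j : Hˣ), U_le D ∅ (u.x k j).2⟩)) := ⟨_, rfl⟩
    have hM1 : ∀ l', l' ∉ bad → (1 - MonoidAlgebra.single (D.σ l')⁻¹
        (Ideal.absNorm l'.asIdeal : ℚ)) * M ∈ ZG G := by
      intro l' hl'
      rw [hM]
      refine hminor l' (fun a => Fin.succAbove l a) ⟨0, hr⟩ hl'
        (fun j _ => Fin.succAbove_ne l j) (fun x _ => ?_)
      exact hf2 _ (Fin.succAbove_ne l _) _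
    obtain ⟨m', l', d, hd⟩ := hid D bad hbad n hn hnI τ hτ hk (χ.comp (inc D v hv hσ P hP))
      (fun a => e (inc D v hv hσ P hP a)) (fun u γ => he (inc D v hv hσ P hP u) γ) (by
      intro x hx hxn
      obtain ⟨w, hw⟩ := (t_OVER F H t).1
      have h1 := (hker ⟨(x : Hˣ), US_le_addS D v hv hσ P hP x.2⟩).1 hx w hw
      exact root_eq_one w n (htn' w hw) (x : Hˣ) hxn h1) b (by
      intro a ha
      have h1 : f l (inc D v hv hσ P hP a) = 0 := by
        obtain ⟨N, hN, h2⟩ := isOfFinAddOrder_iff_nsmul_eq_zero.1 ha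
        have h3 : N • f l (inc D v hv hσ P hP a) = 0 := by
          rw [← map_nsmul, ← map_nsmul, h2, map_zero, map_zero]
        rw [nsmul_eq_mul] at h3
        exact natCast_cancel hN (h3.trans (mul_zero _).symm)
      have h2 := hb (inc D v hv hσ P hP a)
      rw [h1, zero_sub] at h2
      simpa using (ZG G).neg_mem h2)
    have hbM : toQ b * M ∈ ZG G := by
      rw [hd, Finset.sum_mul]
      refine (ZG G).sum_mem fun j _ => ?_
      rw [mul_assoc]
      exact (ZG G).mul_mem ⟨_, rfl⟩ (hM1 _ (l' j).2)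
    have h1 : (1 - MonoidAlgebra.single (D.σ t)⁻¹ (Ideal.absNorm t.asIdeal : ℚ)) *
        ((-1) ^ ((l : ℕ) + ((Fin.last D.r : Fin (D.r + 1)) : ℕ)) * f l ε' * M) =
        (-1) ^ ((l : ℕ) + ((Fin.last D.r : Fin (D.r + 1)) : ℕ)) *
          ((toQ b * M) * ((1 - MonoidAlgebra.single (D.σ t)⁻¹
            (Ideal.absNorm t.asIdeal : ℚ)) * e ε') +
          (f l ε' - toQ b * e ε') * ((1 - MonoidAlgebra.single (D.σ t)⁻¹
            (Ideal.absNorm t.asIdeal : ℚ)) * M)) := by ring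
    have h2 : (1 - MonoidAlgebra.single (D.σ t)⁻¹ (Ideal.absNorm t.asIdeal : ℚ)) *
        ((-1) ^ ((l : ℕ) + ((Fin.last D.r : Fin (D.r + 1)) : ℕ)) * f l ε' * M) ∈ ZG G := by
      rw [h1]
      refine (ZG G).mul_mem ((ZG G).pow_mem ((ZG G).neg_mem (ZG G).one_mem) _)
        ((ZG G).add_mem ((ZG G).mul_mem hbM (frob_e χ e he _ _ hfr ε'))
          ((ZG G).mul_mem (hb ε') (hM1 t htb)))
    rw [hM] at h2
    exact h2
  · obtain ⟨i', hi'⟩ := Fin.exists_succAbove_eq (Ne.symm hl : i ≠ l)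
    have h1 := hminor t (fun a => Fin.succAbove l a) i' htb
      (fun j hj h => hj (Fin.succAbove_right_injective (h.trans hi'.symm))) (by
        rw [hi']
        exact hresi)
    rw [mul_left_comm]
    exact (ZG G).mul_mem ((ZG G).mul_mem ((ZG G).pow_mem ((ZG G).neg_mem (ZG G).one_mem) _)
      (hf2 l hl ε')) h1

/-- **Adding a prime ideal.** -/
theorem pq_addS (hr : 0 < D.r) (ε : Hˣ) (hε : ε ∈ US (addS D v hv hσ P hP))
    (hO : OG G P ε = 1) (h : PQ D) : PQ (addS D v hv hσ P hP) := by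
  obtain ⟨u, hE, hS, bad₀, hI⟩ := h
  obtain ⟨bad, hb⟩ := intP_addS D v hv hσ P hP hr ε hε u bad₀ hI
  exact ⟨wedgeUp D v hv hσ P hP 1 ε hε u, inER_wedgeUp D v hv hσ P hP 1 ε hε u hE,
    isStark_wedgeUp D v hv hσ P hP 1 one_pos ε hε (by rw [hO, Nat.cast_one]) u hS, bad, hb⟩

end Pool.Agent.U360.PO
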