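import Pool.Agent.U360.PO.Kum2

/-!
# The number of roots of unity
-/

set_option autoImplicit false
set_option linter.unusedSectionVars false

open NumberField IsDedekindDomain Filter Topology

noncomputable section

namespace Pool.Agent.U360.PO

open Pool.Agent.K3h30.RS Pool.Agent.U360.RS Pool.Agent.U360.AS Pool.Agent.K3h8.RS
  Pool.Agent.K3h25.RS

attribute [local instance] instA

theorem pow_torsionOrder {H : Type} [Field H] [NumberField H] (τ : Hˣ) (h : IsOfFinOrder τ) :
    τ ^ (Units.torsionOrder H) = 1 := by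
  obtain ⟨n, hn, h1⟩ := isOfFinOrder_iff_pow_eq_one.1 h
  have hint : IsIntegral ℤ (τ : H) := by
    refine IsIntegral.of_pow hn ?_
    rw [← Units.val_pow_eq_pow_val, h1, Units.val_one]
    exact isIntegral_one
  have hint' : IsIntegral ℤ ((τ⁻¹ : Hˣ) : H) := by
    refine IsIntegral.of_pow hn ?_
    rw [← Units.val_pow_eq_pow_val, inv_pow, h1, inv_one, Units.val_one]
    exact isIntegral_one
  let t : (𝓞 H)ˣ :=
    { val := ⟨(τ : H), hint⟩
      inv := ⟨((τ⁻¹ : Hˣ) : H), hint'⟩
      val_inv := by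
        apply RingOfIntegers.ext
        change (τ : H) * ((τ⁻¹ : Hˣ) : H) = 1
        rw [← Units.val_mul, mul_inv_cancel, Units.val_one]
      inv_val := by
        apply RingOfIntegers.ext
        change ((τ⁻¹ : Hˣ) : H) * (τ : H) = 1
        rw [← Units.val_mul, inv_mul_cancel, Units.val_one] }
  have ht : t ^ n = 1 := by
    apply Units.ext
    apply RingOfIntegers.ext
    change (τ : H) ^ n = 1
    rw [← Units.val_pow_eq_pow_val, h1, Units.val_one]
  have htors : t ∈ Units.torsion H := by
    have h2 : IsOfFinOrder t := isOfFinOrder_iff_pow_eq_one.2 ⟨n, hn, ht⟩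
    exact (CommGroup.mem_torsion _).2 h2
  rw [← Units.rootsOfUnity_eq_torsion] at htors
  have h3 : t ^ (Units.torsionOrder H) = 1 := (mem_rootsOfUnity _ _).1 htors
  apply Units.ext
  have h4 := congrArg (fun z : (𝓞 H)ˣ => ((z : 𝓞 H) : H)) h3
  rw [Units.val_pow_eq_pow_val, Units.val_one]
  exact h4

theorem exists_order (H : Type) [Field H] [NumberField H] :
    ∃ τ : Hˣ, orderOf τ = Units.torsionOrder H := by
  obtain ⟨g, hg⟩ := IsCyclic.exists_ofOrder_eq_natCard (α := Units.torsion H)
  refine ⟨Units.map (algebraMap (𝓞 H) H : 𝓞 H →* H) ((g : Units.torsion H) : (𝓞 H)ˣ), ?_⟩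
  rw [orderOf_injective (Units.map (algebraMap (𝓞 H) H : 𝓞 H →* H))
    (Units.map_injective (RingOfIntegers.coe_injective)), Subgroup.orderOf_coe, hg]
  rfl

variable {F H G : Type} [Field F] [NumberField F] [Field H] [NumberField H] [Algebra F H]
  [CommGroup G] [Finite G] [MulSemiringAction G H]

variable [hG : IsGaloisGroup G F H] (D : RubinData F H G)

/-- the number of roots of unity is in the ideal generated by the `1 - N v σ_v⁻¹` -/
theorem torsionOrder_mem (bad : Finset (HeightOneSpectrum (𝓞 F))) :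
    ((Units.torsionOrder H : ℤ) : MonoidAlgebra ℤ G) ∈ annI D bad := by
  obtain ⟨n, hn, hnI, ⟨τ, hτ⟩, -⟩ := exists_root D bad
  have h1 : n ∣ Units.torsionOrder H := by
    rw [← hτ]
    refine orderOf_dvd_of_pow_eq_one (pow_torsionOrder τ ?_)
    rw [← orderOf_pos_iff, hτ]
    exact hn
  obtain ⟨k, hk⟩ := h1
  rw [hk]
  have e : (((n * k : ℕ) : ℤ) : MonoidAlgebra ℤ G) =
      (k : MonoidAlgebra ℤ G) * ((n : ℤ) : MonoidAlgebra ℤ G) := by
    push_cast
    ring
  rw [e]
  exact (annI D bad).mul_mem_left _ hnI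

end Pool.Agent.U360.PO
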